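import Pool.Agent.STK.Leaf

/-!
Alternating sequences of branches with an antisymmetric labelling.
-/

namespace Pool.Agent.STK

/-- `Alt n rel ng x d s m`: there are `m` leaves branching off `x` at increasing levels `≥ d`,
with labels alternately `s, ng s, s, ...`. -/
inductive Alt {Λ : Type} (n : ℕ) (rel : Lf n → Lf n → Λ) (ng : Λ → Λ) (x : Lf n) :
    ℕ → Λ → ℕ → Prop
  | nil (d : ℕ) (s : Λ) : Alt n rel ng x d s 0
  | cons (d : ℕ) (s : Λ) (m : ℕ) (y : Lf n) (hd : d ≤ lev n x y) (hy : lev n x y < n)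
      (hr : rel x y = s) (h : Alt n rel ng x (lev n x y + 1) (ng s) m) : Alt n rel ng x d s (m + 1)

variable {Λ : Type}

theorem Alt.weaken {n : ℕ} {rel : Lf n → Lf n → Λ} {ng : Λ → Λ} {x : Lf n} {d d' : ℕ} {s : Λ}
    {m : ℕ} (h : Alt n rel ng x d s m) (hd : d' ≤ d) : Alt n rel ng x d' s m := by
  cases h with
  | nil => exact Alt.nil _ _
  | cons _ _ m y h1 h2 h3 h4 => exact Alt.cons _ _ _ y (le_trans hd h1) h2 h3 h4

theorem Alt.le {n : ℕ} {rel : Lf n → Lf n → Λ} {ng : Λ → Λ} {x : Lf n} {d : ℕ} {s : Λ}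
    {m : ℕ} (h : Alt n rel ng x d s m) : m = 0 ∨ m + d ≤ n := by
  induction h with
  | nil => exact Or.inl rfl
  | cons d s m y h1 h2 h3 h4 ih =>
    right
    rcases ih with h | h <;> omega

theorem Alt.pred {n : ℕ} {rel : Lf n → Lf n → Λ} {ng : Λ → Λ} {x : Lf n} {d : ℕ} {s : Λ}
    {m : ℕ} (h : Alt n rel ng x d s m) : ∀ m' ≤ m, Alt n rel ng x d s m' := by
  induction h with
  | nil d s => intro m' hm; obtain rfl : m' = 0 := by omega
               exact Alt.nil _ _
  | cons d s m y h1 h2 h3 h4 ih =>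
    intro m' hm
    rcases m' with _ | m'
    · exact Alt.nil _ _
    · exact Alt.cons _ _ _ y h1 h2 h3 (ih m' (by omega))

/-- Alternating sequences in a subtree give alternating sequences in the whole tree. -/
theorem Alt.lift {n D : ℕ} {rel : Lf (n + D) → Lf (n + D) → Λ} {ng : Λ → Λ} (u : Lf D)
    {x : Lf n} {d : ℕ} {s : Λ} {m : ℕ}
    (h : Alt n (fun z z' => rel (app D u z) (app D u z')) ng x d s m) :
    Alt (n + D) rel ng (app D u x) (d + D) s m := by
  induction h with
  | nil => exact Alt.nil _ _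
  | cons d s m y h1 h2 h3 h4 ih =>
    refine Alt.cons _ _ _ (app D u y) ?_ ?_ h3 ?_
    · rw [lev_app_same]; omega
    · rw [lev_app_same]; omega
    · rw [lev_app_same]
      exact ih.weaken (by omega)

open Classical in
/-- Length of the longest alternating sequence with top label `s`. -/
noncomputable def nAlt (n : ℕ) (rel : Lf n → Lf n → Λ) (ng : Λ → Λ) (x : Lf n) (s : Λ) : ℕ :=
  Nat.findGreatest (fun m => Alt n rel ng x 0 s m) n

theorem nAlt_spec (n : ℕ) (rel : Lf n → Lf n → Λ) (ng : Λ → Λ) (x : Lf n) (s : Λ) :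
    Alt n rel ng x 0 s (nAlt n rel ng x s) := by
  classical
  unfold nAlt
  exact Nat.findGreatest_spec (P := fun m => Alt n rel ng x 0 s m) (Nat.zero_le n)
    (Alt.nil 0 s)

theorem le_nAlt {n : ℕ} {rel : Lf n → Lf n → Λ} {ng : Λ → Λ} {x : Lf n} {s : Λ} {m : ℕ}
    (h : Alt n rel ng x 0 s m) : m ≤ nAlt n rel ng x s := by
  classical
  unfold nAlt
  apply Nat.le_findGreatest _ h
  rcases h.le with h | h <;> omega

/-- **Alternation lemma.** -/
theorem exists_sum_nAlt [Fintype Λ] [DecidableEq Λ] (ng : Λ → Λ) (hng : ∀ s, ng (ng s) = s)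
    (D : ℕ) (hD : 2 ^ Fintype.card Λ < 2 ^ D) :
    ∀ (k : ℕ) (rel : Lf (D * k) → Lf (D * k) → Λ), (∀ x y, x ≠ y → rel y x = ng (rel x y)) →
      ∃ x, k ≤ ∑ s, nAlt (D * k) rel ng x s := by
  classical
  intro k
  induction k with
  | zero => intro rel _; exact ⟨default, Nat.zero_le _⟩
  | succ k ih =>
    intro rel hrel
    change ∃ x : Lf (D * k + D), k + 1 ≤ ∑ s, nAlt (D * k + D) rel ng x s
    have key : ∀ u : Lf D, ∃ z : Lf (D * k),
        k ≤ ∑ s, nAlt (D * k) (fun z z' => rel (app D u z) (app D u z')) ng z s := by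
      intro u
      exact ih _ (fun x y hxy => hrel _ _ (fun e => hxy (app_inj D u e)))
    choose z hz using key
    let N : Lf D → Λ → ℕ := fun u s =>
      nAlt (D * k) (fun z z' => rel (app D u z) (app D u z')) ng (z u) s
    let st : Lf D → (Λ → Bool) := fun u s => decide (N u s ≤ N u (ng s))
    have hcard : Fintype.card (Λ → Bool) < Fintype.card (Lf D) := by
      rw [card_Lf, Fintype.card_fun, Fintype.card_bool]; exact hD
    obtain ⟨u, u', huu, hst⟩ := Fintype.exists_ne_map_eq_of_card_lt st hcard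
    have mono : ∀ (v : Lf D) (s : Λ), N v s ≤ nAlt (D * k + D) rel ng (app D v (z v)) s := by
      intro v s
      apply le_nAlt
      exact (Alt.lift v (nAlt_spec _ _ _ _ _)).weaken (Nat.zero_le _)
    have gain : ∀ (v v' : Lf D), v ≠ v' → ∀ s, rel (app D v (z v)) (app D v' (z v')) = s →
        N v s ≤ N v (ng s) → k + 1 ≤ ∑ t, nAlt (D * k + D) rel ng (app D v (z v)) t := by
      intro v v' hv s hs hN
      have hlt : lev D v v' < D := (lev_lt_iff D v v').mpr hv
      have h1 : N v (ng s) + 1 ≤ nAlt (D * k + D) rel ng (app D v (z v)) s := by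
        apply le_nAlt
        refine Alt.cons _ _ _ (app D v' (z v')) (Nat.zero_le _) ?_ hs ?_
        · rw [lev_app_diff D v v' hv]; omega
        · rw [lev_app_diff D v v' hv]
          exact (Alt.lift v (nAlt_spec _ _ _ _ _)).weaken (by omega)
      calc k + 1 ≤ ∑ t, N v t + 1 := Nat.succ_le_succ (hz v)
        _ ≤ ∑ t, nAlt (D * k + D) rel ng (app D v (z v)) t := by
            have : ∑ t, N v t < ∑ t, nAlt (D * k + D) rel ng (app D v (z v)) t := by
              apply Finset.sum_lt_sum (fun t _ => mono v t)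
              exact ⟨s, Finset.mem_univ _, by omega⟩
            exact this
    set s := rel (app D u (z u)) (app D u' (z u')) with hs
    by_cases hc : N u s ≤ N u (ng s)
    · exact ⟨app D u (z u), gain u u' huu s hs.symm hc⟩
    · refine ⟨app D u' (z u'), gain u' u huu.symm (ng s) ?_ ?_⟩
      · rw [hrel _ _ (app_ne D huu _ _)]
      · have h2 : st u' s = false := by
          rw [← hst]
          simp only [st, decide_eq_false_iff_not]
          exact hc
        simp only [st, decide_eq_false_iff_not, not_le] at h2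
        rw [hng]
        exact h2.le

/-- Alternation lemma, one label. -/
theorem exists_alt [Fintype Λ] [DecidableEq Λ] [Nonempty Λ] (ng : Λ → Λ)
    (hng : ∀ s, ng (ng s) = s) (D : ℕ) (hD : 2 ^ Fintype.card Λ < 2 ^ D)
    (m : ℕ) (rel : Lf (D * (Fintype.card Λ * m)) → Lf (D * (Fintype.card Λ * m)) → Λ)
    (hrel : ∀ x y, x ≠ y → rel y x = ng (rel x y)) :
    ∃ x s, Alt (D * (Fintype.card Λ * m)) rel ng x 0 s m := by
  obtain ⟨x, hx⟩ := exists_sum_nAlt ng hng D hD (Fintype.card Λ * m) rel hrel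
  obtain ⟨s, hs⟩ : ∃ s, m ≤ nAlt (D * (Fintype.card Λ * m)) rel ng x s := by
    by_contra hcon
    push Not at hcon
    have : ∑ s, nAlt (D * (Fintype.card Λ * m)) rel ng x s < ∑ s : Λ, m :=
      Finset.sum_lt_sum_of_nonempty Finset.univ_nonempty (fun s _ => hcon s)
    rw [Finset.sum_const, Finset.card_univ, smul_eq_mul] at this
    omega
  exact ⟨x, s, (nAlt_spec _ _ _ _ _).pred m hs⟩

end Pool.Agent.STK
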