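import Pool.Agent.STK.Defs

/-! Members of odd and even rank of the image of a list. -/

namespace Pool.Agent.STK

theorem mem_colA_map {α β : Type} (f : α → β) : ∀ (ys : List α) (z : β),
    z ∈ colA (ys.map f) ↔ ∃ y ∈ colA ys, f y = z := by
  intro ys
  induction ys with
  | nil => intro z; simp [colA]
  | cons y ys ih =>
    intro z
    simp only [List.map_cons, colA, Set.mem_ofPred_eq, List.length_map, ih]
    constructor
    · rintro (⟨u, hu, rfl⟩ | ⟨rfl, h⟩)
      · exact ⟨u, Or.inl hu, rfl⟩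
      · exact ⟨y, Or.inr ⟨rfl, h⟩, rfl⟩
    · rintro ⟨u, hu | ⟨rfl, h⟩, rfl⟩
      · exact Or.inl ⟨u, hu, rfl⟩
      · exact Or.inr ⟨rfl, h⟩

theorem mem_colB_map {α β : Type} (f : α → β) : ∀ (ys : List α) (z : β),
    z ∈ colB (ys.map f) ↔ ∃ y ∈ colB ys, f y = z := by
  intro ys
  induction ys with
  | nil => intro z; simp [colB]
  | cons y ys ih =>
    intro z
    simp only [List.map_cons, colB, Set.mem_ofPred_eq, List.length_map, ih]
    constructor
    · rintro (⟨u, hu, rfl⟩ | ⟨rfl, h⟩)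
      · exact ⟨u, Or.inl hu, rfl⟩
      · exact ⟨y, Or.inr ⟨rfl, h⟩, rfl⟩
    · rintro ⟨u, hu | ⟨rfl, h⟩, rfl⟩
      · exact Or.inl ⟨u, hu, rfl⟩
      · exact Or.inr ⟨rfl, h⟩

end Pool.Agent.STK
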