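import Pool.Agent.STK.Conf
import Pool.Agent.STK.Alt
import Pool.Agent.STK.ColMap

/-!
The combinatorial theorem: a word of linear length over the leaves is separated by a comb.
-/

namespace Pool.Agent.STK

/-- Cutting a word at the changes of a colouring of the positions. -/
theorem exists_segs {β : Type} : ∀ (w : List β) (col : ℕ → Bool) (T : Finset ℕ),
    (∀ p, p + 1 < w.length → col p ≠ col (p + 1) → p + 1 ∈ T) →
    ∃ L : List (Bool × List β), (L.map Prod.snd).flatten = w ∧ L.length ≤ T.card + 1 ∧
      (∀ s ∈ L, ∀ b ∈ s.2, ∃ p, w[p]? = some b ∧ col p = s.1) ∧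
      (w ≠ [] → ∃ seg L', L = (col 0, seg) :: L') := by
  intro w
  induction w with
  | nil =>
    intro col T _
    exact ⟨[], rfl, Nat.zero_le _, fun s hs => absurd hs List.not_mem_nil,
      fun h => absurd rfl h⟩
  | cons x w ih =>
    intro col T hT
    obtain ⟨L0, h1, h2, h3, h4⟩ := ih (fun p => col (p + 1)) ((T.erase 1).image (fun t => t - 1))
      (by
        intro p hp hc
        have := hT (p + 1) (by simpa using hp) hc
        rw [Finset.mem_image]
        exact ⟨p + 1 + 1, Finset.mem_erase.mpr ⟨by omega, this⟩, by omega⟩)
    have hcard : ((T.erase 1).image (fun t => t - 1)).card ≤ (T.erase 1).card :=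
      Finset.card_image_le
    by_cases hw : w = []
    · subst hw
      refine ⟨[(col 0, [x])], rfl, by simp, ?_, fun _ => ⟨[x], [], rfl⟩⟩
      intro s hs b hb
      rw [List.mem_singleton] at hs
      subst hs
      rw [List.mem_singleton] at hb
      subst hb
      exact ⟨0, rfl, rfl⟩
    · obtain ⟨seg, L', rfl⟩ := h4 hw
      have hlift : ∀ s ∈ (col (0 + 1), seg) :: L', ∀ b ∈ s.2,
          ∃ p, (x :: w)[p]? = some b ∧ col p = s.1 := by
        intro s hs b hb
        obtain ⟨p, hp1, hp2⟩ := h3 s hs b hb
        exact ⟨p + 1, by simpa using hp1, hp2⟩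
      by_cases hc : col 0 = col 1
      · refine ⟨(col 0, x :: seg) :: L', ?_, ?_, ?_, fun _ => ⟨x :: seg, L', rfl⟩⟩
        · simpa using h1
        · have : (T.erase 1).card ≤ T.card := Finset.card_erase_le
          simp only [List.length_cons] at h2 ⊢
          omega
        · intro s hs b hb
          rw [List.mem_cons] at hs
          rcases hs with rfl | hs
          · simp only [List.mem_cons] at hb
            rcases hb with rfl | hb
            · exact ⟨0, rfl, rfl⟩
            · obtain ⟨p, hp1, hp2⟩ := hlift (col (0 + 1), seg) List.mem_cons_self b hb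
              exact ⟨p, hp1, by rw [hp2]; exact hc.symm⟩
          · exact hlift s (List.mem_cons_of_mem _ hs) b hb
      · have h1T : 1 ∈ T := by
          apply hT 0 _ hc
          rw [List.length_cons]
          have : 0 < w.length := List.length_pos_iff.mpr hw
          omega
        refine ⟨(col 0, [x]) :: (col (0 + 1), seg) :: L', ?_, ?_, ?_,
          fun _ => ⟨[x], _, rfl⟩⟩
        · simpa using h1
        · rw [Finset.card_erase_of_mem h1T] at hcard
          have : 0 < T.card := Finset.card_pos.mpr ⟨1, h1T⟩
          rw [List.length_cons]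
          omega
        · intro s hs b hb
          rw [List.mem_cons] at hs
          rcases hs with rfl | hs
          · rw [List.mem_singleton] at hb
            subst hb
            exact ⟨0, rfl, rfl⟩
          · exact hlift s hs b hb

/-- From alternating sequences to lists. -/
theorem alt_list {Λ : Type} {n : ℕ} {rel : Lf n → Lf n → Λ} {ng : Λ → Λ}
    (hng : ∀ s, ng (ng s) = s) {x : Lf n} {d : ℕ} {s : Λ} {m : ℕ}
    (h : Alt n rel ng x d s m) :
    ∃ ys : List (Lf n), ys.length = m ∧ ys.Pairwise (fun y y' => lev n x y < lev n x y') ∧
      (∀ y ∈ ys, d ≤ lev n x y ∧ lev n x y < n) ∧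
      (∀ y ∈ colA ys, rel x y = if m % 2 = 0 then s else ng s) ∧
      (∀ y ∈ colB ys, rel x y = if m % 2 = 0 then ng s else s) := by
  induction h with
  | nil d s =>
    exact ⟨[], rfl, List.Pairwise.nil, fun y hy => absurd hy List.not_mem_nil,
      fun y hy => absurd hy (Set.notMem_empty _), fun y hy => absurd hy (Set.notMem_empty _)⟩
  | cons d s m y h1 h2 h3 h4 ih =>
    obtain ⟨ys, e1, e2, e3, e4, e5⟩ := ih
    refine ⟨y :: ys, by simp [e1], ?_, ?_, ?_, ?_⟩
    · rw [List.pairwise_cons]
      exact ⟨fun z hz => (e3 z hz).1, e2⟩
    · intro z hz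
      rw [List.mem_cons] at hz
      rcases hz with rfl | hz
      · exact ⟨h1, h2⟩
      · have := e3 z hz
        omega
    · intro z hz
      rcases hz with hz | ⟨rfl, hz⟩
      · rw [e4 z hz, hng]
        split_ifs <;> first | rfl | omega
      · rw [e1] at hz
        rw [h3, if_pos (by omega)]
    · intro z hz
      rcases hz with hz | ⟨rfl, hz⟩
      · rw [e5 z hz, hng]
        split_ifs <;> first | rfl | omega
      · rw [e1] at hz
        rw [h3, if_neg (by omega)]

theorem isComb_of_incr : ∀ (n : ℕ) (x : Lf n) (ys : List (Lf n)),
    ys.Pairwise (fun y y' => lev n x y < lev n x y') → (∀ y ∈ ys, lev n x y < n) →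
    IsComb n x ys := by
  intro n
  induction n with
  | zero =>
    intro x ys _ h
    rcases ys with _ | ⟨y, ys⟩
    · exact IsComb.nil _ _
    · exact absurd (h y List.mem_cons_self) (Nat.not_lt_zero _)
  | succ n ih =>
    rintro ⟨b, l⟩ ys hp hl
    -- a list of leaves in the part of the spine
    have key : ∀ zs : List (Lf (n + 1)), (∀ z ∈ zs, z.1 = b) →
        zs.Pairwise (fun y y' => lev (n + 1) ((b, l) : Lf (n + 1)) y <
          lev (n + 1) ((b, l) : Lf (n + 1)) y') →
        (∀ y ∈ zs, lev (n + 1) ((b, l) : Lf (n + 1)) y < n + 1) →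
        ∃ zs' : List (Lf n), IsComb n l zs' ∧ zs = zs'.map (fun z => ((b, z) : Lf (n + 1))) := by
      intro zs hb hp hl
      refine ⟨zs.map (fun z => (z.2 : Lf n)), ?_, ?_⟩
      · apply ih
        · rw [List.pairwise_map]
          refine hp.imp_of_mem ?_
          intro y y' hy hy' hlt
          have e1 : lev (n + 1) ((b, l) : Lf (n + 1)) y = lev n l y.2 + 1 := by
            change (if b = y.1 then lev n l y.2 + 1 else 0) = _
            rw [if_pos (hb y hy).symm]
          have e2 : lev (n + 1) ((b, l) : Lf (n + 1)) y' = lev n l y'.2 + 1 := by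
            change (if b = y'.1 then lev n l y'.2 + 1 else 0) = _
            rw [if_pos (hb y' hy').symm]
          rw [e1, e2] at hlt
          omega
        · intro y hy
          rw [List.mem_map] at hy
          obtain ⟨z, hz, rfl⟩ := hy
          have e1 : lev (n + 1) ((b, l) : Lf (n + 1)) z = lev n l z.2 + 1 := by
            change (if b = z.1 then lev n l z.2 + 1 else 0) = _
            rw [if_pos (hb z hz).symm]
          have := hl z hz
          rw [e1] at this
          omega
      · rw [List.map_map]
        conv_lhs => rw [← List.map_id zs]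
        apply List.map_congr_left
        intro z hz
        change z = (b, z.2)
        rw [← hb z hz]
        rfl
    rcases ys with _ | ⟨y, ys⟩
    · exact IsComb.nil _ _
    · rw [List.pairwise_cons] at hp
      have htail : ∀ z ∈ ys, z.1 = b := by
        intro z hz
        have h1 := hp.1 z hz
        by_contra hne
        have : lev (n + 1) ((b, l) : Lf (n + 1)) z = 0 := by
          change (if b = z.1 then lev n l z.2 + 1 else 0) = 0
          rw [if_neg (fun e => hne e.symm)]
        rw [this] at h1
        exact absurd h1 (Nat.not_lt_zero _)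
      by_cases hy : y.1 = b
      · obtain ⟨zs', h1, h2⟩ := key (y :: ys)
          (by
            intro z hz
            rw [List.mem_cons] at hz
            rcases hz with rfl | hz
            · exact hy
            · exact htail z hz)
          (List.pairwise_cons.mpr hp) hl
        rw [h2]
        exact IsComb.const n b l zs' h1
      · obtain ⟨zs', h1, h2⟩ := key ys htail hp.2
          (fun z hz => hl z (List.mem_cons_of_mem _ hz))
        have hy' : y = ((!b, y.2) : Lf (n + 1)) := by
          obtain ⟨a, z⟩ := y
          have : a = !b := by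
            revert hy
            cases a <;> cases b <;> simp
          rw [this]
        rw [h2, hy']
        exact IsComb.letter n b l y.2 zs' h1

end Pool.Agent.STK
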