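import Pool.Agent.STK.Comb

/-!
The combinatorial theorem.
-/

namespace Pool.Agent.STK

/-- Occurrences of the leaf `x`. -/
def occ {h : ℕ} (w : List (Option (Lf h))) (x : Lf h) : Finset ℕ :=
  (Finset.range w.length).filter (fun p => w[p]? = some (some x))

/-- Occurrences, plus one virtual occurrence after the end. -/
noncomputable def occ' {h : ℕ} (w : List (Option (Lf h))) (x : Lf h) : Finset ℕ :=
  insert (w.length + (Fintype.equivFin (Lf h) x : ℕ)) (occ w x)

theorem mem_occ {h : ℕ} {w : List (Option (Lf h))} {x : Lf h} {p : ℕ}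
    (hp : w[p]? = some (some x)) : p ∈ occ w x := by
  rw [occ, Finset.mem_filter, Finset.mem_range]
  refine ⟨?_, hp⟩
  by_contra hc
  rw [List.getElem?_eq_none (not_lt.mp hc)] at hp
  exact absurd hp (by simp)

theorem occ'_disjoint {h : ℕ} {w : List (Option (Lf h))} {x y : Lf h} (hxy : x ≠ y) {p q : ℕ}
    (hp : p ∈ occ' w x) (hq : q ∈ occ' w y) : p ≠ q := by
  rintro rfl
  rw [occ', Finset.mem_insert, occ, Finset.mem_filter, Finset.mem_range] at hp hq
  rcases hp with hp | ⟨hp1, hp2⟩
  · rcases hq with hq | ⟨hq1, hq2⟩
    · apply hxy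
      apply (Fintype.equivFin (Lf h)).injective
      apply Fin.ext
      omega
    · omega
  · rcases hq with hq | ⟨hq1, hq2⟩
    · omega
    · rw [hp2] at hq2
      apply hxy
      simpa using hq2

theorem few_reads {h c : ℕ} (w : List (Option (Lf h))) (hw : w.length ≤ c * 2 ^ h) :
    2 ^ h ≤ 2 * (Finset.univ.filter (fun x => (occ w x).card ≤ 2 * c)).card := by
  have h1 : ∑ x : Lf h, (occ w x).card ≤ w.length := by
    rw [← Finset.card_biUnion]
    · calc (Finset.univ.biUnion (occ w)).card ≤ (Finset.range w.length).card := by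
            apply Finset.card_le_card
            intro p hp
            rw [Finset.mem_biUnion] at hp
            obtain ⟨x, _, hx⟩ := hp
            exact (Finset.mem_filter.mp hx).1
        _ = w.length := Finset.card_range _
    · intro x _ y _ hxy
      rw [Function.onFun, Finset.disjoint_left]
      intro p hp hq
      have e1 := (Finset.mem_filter.mp hp).2
      have e2 := (Finset.mem_filter.mp hq).2
      rw [e1] at e2
      apply hxy
      simpa using e2
  have h2 : (Finset.univ.filter (fun x : Lf h => ¬ (occ w x).card ≤ 2 * c)).card * (2 * c + 1) ≤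
      ∑ x : Lf h, (occ w x).card := by
    calc (Finset.univ.filter (fun x : Lf h => ¬ (occ w x).card ≤ 2 * c)).card * (2 * c + 1)
        = ∑ x ∈ Finset.univ.filter (fun x : Lf h => ¬ (occ w x).card ≤ 2 * c), (2 * c + 1) := by
          rw [Finset.sum_const, smul_eq_mul]
      _ ≤ ∑ x ∈ Finset.univ.filter (fun x : Lf h => ¬ (occ w x).card ≤ 2 * c),
            (occ w x).card := by
          apply Finset.sum_le_sum
          intro x hx
          rw [Finset.mem_filter] at hx
          omega
      _ ≤ ∑ x : Lf h, (occ w x).card :=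
          Finset.sum_le_sum_of_subset (Finset.filter_subset _ _)
  have h3 := Finset.card_filter_add_card_filter_not (s := (Finset.univ : Finset (Lf h)))
    (fun x => (occ w x).card ≤ 2 * c)
  rw [Finset.card_univ, card_Lf] at h3
  set a := (Finset.univ.filter (fun x : Lf h => (occ w x).card ≤ 2 * c)).card
  set b := (Finset.univ.filter (fun x : Lf h => ¬ (occ w x).card ≤ 2 * c)).card
  have h4 : b * (2 * c + 1) ≤ c * 2 ^ h := le_trans (le_trans h2 h1) hw
  have h5 : 2 * b ≤ 2 ^ h := by
    by_contra hc
    push Not at hc
    have h6 : c * 2 ^ h + c ≤ c * (2 * b) := by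
      calc c * 2 ^ h + c = c * (2 ^ h + 1) := by ring
        _ ≤ c * (2 * b) := Nat.mul_le_mul_left _ hc
    have h7 : b * (2 * c + 1) = c * (2 * b) + b := by ring
    have h8 : 0 < b := by
      rcases Nat.eq_zero_or_pos b with hb | hb
      · rw [hb] at hc
        exact absurd hc (Nat.not_lt_zero _)
      · exact hb
    omega
  omega

/-- The number of levels needed. -/
def need (c M : ℕ) : ℕ :=
  4 * (8 ^ (2 * c + 1) * ((2 ^ (2 * c + 1) + 1) * (2 ^ (2 * c + 1) * (2 * M)) + (2 * c + 1)))

/-- **The combinatorial theorem.** -/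
theorem comb_exists (c M h : ℕ) (hh : need c M ≤ h) (w : List (Option (Lf h)))
    (hw : w.length ≤ c * 2 ^ h) :
    ∃ (l : Lf h) (ys : List (Lf h)), IsComb h l ys ∧ ys.length = 2 * M ∧
      ∃ L : List (Bool × List (Option (Lf h))), (L.map Prod.snd).flatten = w ∧
        L.length ≤ 4 * c + 2 ∧ ∀ s ∈ L, (s.1 = true → ∀ z ∈ colB ys, some z ∉ s.2) ∧
          (s.1 = false → ∀ z ∈ colA ys, some z ∉ s.2) := by
  classical
  set C := 2 * c + 1 with hC
  set t := (2 ^ C + 1) * (2 ^ C * (2 * M)) with ht
  have hneed : 4 * (8 ^ C * (t + C)) ≤ h := hh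
  -- many leaves with few occurrences
  have hE1 : Emb h (fun x => (occ' w x).card ≤ C) (8 ^ (2 * c + 1) * (t + C)) := by
    have h1 := emb_of_half h (fun x => (occ w x).card ≤ 2 * c) (by
      have := few_reads w hw
      convert this)
    refine (h1.mono ?_).of_le ?_
    · intro x hx
      calc (occ' w x).card ≤ (occ w x).card + 1 := Finset.card_insert_le _ _
        _ ≤ C := by omega
    · rw [← hC]
      omega
  -- separators
  obtain ⟨Θ, X, r, hr, hX, hE, hS⟩ := exists_sep (occ' w) C (t + C) (2 * c) ∅
    (fun x => (occ' w x).card ≤ C)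
    (by
      intro x hx
      refine ⟨?_, hx⟩
      intro i hi
      rw [Finset.card_empty] at hi
      refine ⟨w.length + (Fintype.equivFin (Lf h) x : ℕ), Finset.mem_insert_self _ _, ?_⟩
      simp only [blk, Finset.filter_empty, Finset.card_empty]
      omega)
    (by rw [Finset.card_empty]; omega) hE1
  -- no conflicts
  obtain ⟨f0, hf0, hXf0, hconf0⟩ := exists_conflict_free (occ' w) C r (by omega) Θ X
    (fun x hx => (hX x hx).2) hE hS
  obtain ⟨d, hd⟩ : ∃ d, r = t + d := ⟨r - t, by omega⟩
  subst hd
  set f : Lf t → Lf h := fun z => f0 (app d default z) with hf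
  have hfm : LevMono f := hf0.comp (levMono_app d default)
  have hXf : ∀ x, X (f x) := fun x => hXf0 _
  have hconf : ∀ u u', u ≠ u' → ∀ φ ∈ occ' w (f u'), ¬ Stab Θ φ (occ' w (f u)) := by
    intro u u' hu φ hφ
    exact hconf0 _ _ (fun e => hu (app_inj d default e)) φ hφ
  have hdisj : ∀ {x y : Lf t}, x ≠ y → ∀ {p q : ℕ}, p ∈ occ' w (f x) → q ∈ occ' w (f y) →
      p ≠ q := fun hxy => fun hp hq => occ'_disjoint (hfm.ne hxy) hp hq
  -- an occurrence in every block
  have hrep : ∀ (x : Lf t) (k : ℕ), ∃ p ∈ occ' w (f x), k ≤ Θ.card → blk Θ p = k := by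
    intro x k
    by_cases hk : k ≤ Θ.card
    · obtain ⟨p, hp, hpk⟩ := (hX _ (hXf x)).1 k hk
      exact ⟨p, hp, fun _ => hpk⟩
    · exact ⟨w.length + (Fintype.equivFin (Lf h) (f x) : ℕ), Finset.mem_insert_self _ _,
        fun hk' => absurd hk' hk⟩
  choose a ha hak using hrep
  -- the labelling
  let Λ := Fin C → Bool
  let ng : Λ → Λ := fun s k => !(s k)
  have hng : ∀ s, ng (ng s) = s := fun s => by funext k; simp [ng]
  let rel : Lf t → Lf t → Λ := fun x y k => decide (a y k < a x k)
  have hrel : ∀ x y, x ≠ y → rel y x = ng (rel x y) := by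
    intro x y hxy
    funext k
    have h1 : a x k ≠ a y k := hdisj hxy (ha x k) (ha y k)
    simp only [rel, ng]
    by_cases h2 : a x k < a y k
    · rw [decide_eq_true h2, decide_eq_false (by omega)]; rfl
    · rw [decide_eq_false h2, decide_eq_true (by omega)]; rfl
  have hΛ : Fintype.card Λ = 2 ^ C := by
    simp only [Λ, Fintype.card_fun, Fintype.card_bool, Fintype.card_fin]
  have halt : ∃ (x : Lf t) (s : Λ), Alt t rel ng x 0 s (2 * M) := by
    have h1 := exists_alt (Λ := Λ) ng hng (2 ^ C + 1)
      (by rw [hΛ]; exact Nat.pow_lt_pow_right (by norm_num) (Nat.lt_succ_self _)) (2 * M)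
    rw [hΛ] at h1
    exact h1 rel hrel
  obtain ⟨x, s, hxs⟩ := halt
  obtain ⟨ys, hlen, hpw, hlv, hA, hB⟩ := alt_list hng hxs
  have hmod : 2 * M % 2 = 0 := by omega
  rw [hmod] at hA hB
  simp only [if_true] at hA hB
  refine ⟨f x, ys.map f, ?_, by rw [List.length_map, hlen], ?_⟩
  · apply isComb_of_incr
    · rw [List.pairwise_map]
      exact hpw.imp (fun {y y'} hyy => hfm _ _ _ hyy)
    · intro y hy
      rw [List.mem_map] at hy
      obtain ⟨z, hz, rfl⟩ := hy
      rw [lev_lt_iff]
      exact hfm.ne ((lev_lt_iff _ _ _).mp (hlv z hz).2)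
  · -- the colouring of the positions
    have hcardC : Θ.card + 1 ≤ C := le_trans (hX _ (hXf x)).1.card (hX _ (hXf x)).2
    have hblk : ∀ p, blk Θ p < C := fun p => lt_of_le_of_lt (blk_le Θ p) (by omega)
    let k : ℕ → Fin C := fun p => ⟨blk Θ p, hblk p⟩
    let col : ℕ → Bool := fun p => if p < a x (k p) then s (k p) else !(s (k p))
    let T : Finset ℕ := Θ ∪ Finset.univ.image (fun i : Fin C => a x i)
    have hT : ∀ p, p + 1 < w.length → col p ≠ col (p + 1) → p + 1 ∈ T := by
      intro p _ hc
      rw [Finset.mem_union]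
      by_cases hb : blk Θ p = blk Θ (p + 1)
      · right
        rw [Finset.mem_image]
        refine ⟨k p, Finset.mem_univ _, ?_⟩
        have hk : k (p + 1) = k p := Fin.ext hb.symm
        simp only [col] at hc
        rw [hk] at hc
        by_contra hne
        apply hc
        by_cases h1 : p < a x (k p)
        · rw [if_pos h1, if_pos (by omega)]
        · rw [if_neg h1, if_neg (by omega)]
      · left
        by_contra hne
        apply hb
        unfold blk
        congr 1
        ext q
        rw [Finset.mem_filter, Finset.mem_filter]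
        constructor
        · rintro ⟨h1, h2⟩; exact ⟨h1, by omega⟩
        · rintro ⟨h1, h2⟩
          refine ⟨h1, ?_⟩
          by_contra h3
          have : q = p + 1 := by omega
          exact hne (this ▸ h1)
    obtain ⟨L, hL1, hL2, hL3, _⟩ := exists_segs w col T hT
    refine ⟨L, hL1, ?_, ?_⟩
    · have h1 : T.card ≤ Θ.card + C := by
        calc T.card ≤ Θ.card + (Finset.univ.image (fun i : Fin C => a x i)).card :=
              Finset.card_union_le _ _
          _ ≤ Θ.card + (Finset.univ : Finset (Fin C)).card :=
              Nat.add_le_add_left Finset.card_image_le _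
          _ = Θ.card + C := by rw [Finset.card_univ, Fintype.card_fin]
      omega
    · -- positions of the letters
      have side : ∀ y : Lf t, x ≠ y → ∀ p ∈ occ' w (f y),
          (decide (p < a x (k p)) = rel x y (k p)) := by
        intro y hxy p hp
        have hkp : (k p : ℕ) ≤ Θ.card := blk_le Θ p
        have e1 : blk Θ (a y (k p)) = blk Θ p := hak y (k p) hkp
        have e2 : blk Θ (a x (k p)) = blk Θ p := hak x (k p) hkp
        have n1 : p ≠ a x (k p) := hdisj hxy.symm hp (ha x _)
        have n2 : a y (k p) ≠ a x (k p) := hdisj hxy.symm (ha y _) (ha x _)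
        have hst := hconf y x hxy.symm (a x (k p)) (ha x _)
        simp only [rel]
        by_cases h1 : p < a x (k p)
        · rw [decide_eq_true h1]
          by_cases h2 : a y (k p) < a x (k p)
          · rw [decide_eq_true h2]
          · exfalso
            exact hst ⟨p, hp, a y (k p), ha y _, h1, by omega, e1.symm⟩
        · rw [decide_eq_false h1]
          by_cases h2 : a y (k p) < a x (k p)
          · exfalso
            exact hst ⟨a y (k p), ha y _, p, hp, h2, by omega, e1⟩
          · rw [decide_eq_false h2]
      have hmemA : ∀ y ∈ colA ys, y ∈ ys := by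
        intro y hy
        clear * - hy
        induction ys with
        | nil => exact absurd hy (Set.notMem_empty _)
        | cons z ys ih =>
          rcases hy with hy | ⟨rfl, _⟩
          · exact List.mem_cons_of_mem _ (ih hy)
          · exact List.mem_cons_self
      have hmemB : ∀ y ∈ colB ys, y ∈ ys := by
        intro y hy
        clear * - hy
        induction ys with
        | nil => exact absurd hy (Set.notMem_empty _)
        | cons z ys ih =>
          rcases hy with hy | ⟨rfl, _⟩
          · exact List.mem_cons_of_mem _ (ih hy)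
          · exact List.mem_cons_self
      intro sg hsg
      constructor
      · intro hcol z hz hmem
        rw [mem_colB_map] at hz
        obtain ⟨y, hy, rfl⟩ := hz
        obtain ⟨p, hp1, hp2⟩ := hL3 sg hsg _ hmem
        have hxy : x ≠ y := (lev_lt_iff _ _ _).mp (hlv y (hmemB y hy)).2
        have hp : p ∈ occ' w (f y) := Finset.mem_insert_of_mem (mem_occ hp1)
        have h1 := side y hxy p hp
        rw [hB y hy] at h1
        rw [hcol] at hp2
        simp only [col] at hp2
        simp only [ng] at h1
        by_cases h2 : p < a x (k p)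
        · rw [if_pos h2] at hp2
          rw [decide_eq_true h2, hp2] at h1
          exact absurd h1 (by simp)
        · rw [if_neg h2] at hp2
          rw [decide_eq_false h2, hp2] at h1
          exact absurd h1 (by simp)
      · intro hcol z hz hmem
        rw [mem_colA_map] at hz
        obtain ⟨y, hy, rfl⟩ := hz
        obtain ⟨p, hp1, hp2⟩ := hL3 sg hsg _ hmem
        have hxy : x ≠ y := (lev_lt_iff _ _ _).mp (hlv y (hmemA y hy)).2
        have hp : p ∈ occ' w (f y) := Finset.mem_insert_of_mem (mem_occ hp1)
        have h1 := side y hxy p hp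
        rw [hA y hy] at h1
        rw [hcol] at hp2
        simp only [col] at hp2
        by_cases h2 : p < a x (k p)
        · rw [if_pos h2] at hp2
          rw [decide_eq_true h2, hp2] at h1
          exact absurd h1 (by simp)
        · rw [if_neg h2] at hp2
          rw [decide_eq_false h2] at h1
          rw [← h1] at hp2
          exact absurd hp2 (by simp)

end Pool.Agent.STK
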