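import Pool.Agent.STK.Sep

/-!
Choosing one leaf below every node of depth `r` such that no conflicts remain.
-/

namespace Pool.Agent.STK

open Classical in
theorem pair_count {U Z : Type} [Fintype U] [DecidableEq U] [Fintype Z] (B : Z → Z → Prop)
    (K β : ℕ) (u u' : U) (hu : u ≠ u')
    (hB : ∀ w, (Finset.univ.filter (fun v => B v w)).card * K ≤ β) :
    (Finset.univ.filter (fun z : U → Z => B (z u) (z u'))).card * K * Fintype.card Z ≤
      β * Fintype.card (U → Z) := by
  have e := Equiv.piSplitAt u (fun _ : U => Z)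
  have h1 : (Finset.univ.filter (fun z : U → Z => B (z u) (z u'))).card =
      (Finset.univ.filter (fun p : Z × ((j : {j // j ≠ u}) → Z) =>
        B p.1 (p.2 ⟨u', hu.symm⟩))).card := by
    apply Finset.card_bij (fun z _ => (Equiv.piSplitAt u (fun _ : U => Z)) z)
    · intro z hz
      rw [Finset.mem_filter] at hz ⊢
      exact ⟨Finset.mem_univ _, hz.2⟩
    · intro z _ z' _ h
      exact (Equiv.piSplitAt u (fun _ : U => Z)).injective h
    · intro p hp
      refine ⟨(Equiv.piSplitAt u (fun _ : U => Z)).symm p, ?_, Equiv.apply_symm_apply _ _⟩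
      rw [Finset.mem_filter] at hp ⊢
      refine ⟨Finset.mem_univ _, ?_⟩
      obtain ⟨q, rfl⟩ := (Equiv.piSplitAt u (fun _ : U => Z)).surjective p
      rw [Equiv.symm_apply_apply]
      exact hp.2
  have h2 : Fintype.card (U → Z) = Fintype.card Z * Fintype.card ((j : {j // j ≠ u}) → Z) := by
    rw [← Fintype.card_prod]
    exact Fintype.card_congr (Equiv.piSplitAt u (fun _ : U => Z))
  have h3 : (Finset.univ.filter (fun p : Z × ((j : {j // j ≠ u}) → Z) =>
        B p.1 (p.2 ⟨u', hu.symm⟩))).card = ∑ y : ((j : {j // j ≠ u}) → Z),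
        (Finset.univ.filter (fun v => B v (y ⟨u', hu.symm⟩))).card := by
    rw [Finset.card_filter, Fintype.sum_prod_type_right]
    apply Finset.sum_congr rfl
    intro y _
    rw [Finset.card_filter]
  rw [h1, h3, h2, Finset.sum_mul]
  calc (∑ y : ((j : {j // j ≠ u}) → Z),
        (Finset.univ.filter (fun v => B v (y ⟨u', hu.symm⟩))).card * K) * Fintype.card Z
      ≤ (∑ _y : ((j : {j // j ≠ u}) → Z), β) * Fintype.card Z :=
        Nat.mul_le_mul_right _ (Finset.sum_le_sum (fun y _ => hB _))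
    _ = β * (Fintype.card Z * Fintype.card ((j : {j // j ≠ u}) → Z)) := by
        rw [Finset.sum_const, Finset.card_univ, smul_eq_mul]
        ring

open Classical in
theorem pair_avoid {U Z : Type} [Fintype U] [DecidableEq U] [Fintype Z]
    (B : U → U → Z → Z → Prop) (K β : ℕ)
    (hB : ∀ u u', u ≠ u' → ∀ w, (Finset.univ.filter (fun v => B u u' v w)).card * K ≤ β)
    (hβ : Fintype.card U * Fintype.card U * β < Fintype.card Z * K) :
    ∃ z : U → Z, ∀ u u', u ≠ u' → ¬ B u u' (z u) (z u') := by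
  by_contra hcon
  push Not at hcon
  have hZ : 0 < Fintype.card Z := by
    rcases Nat.eq_zero_or_pos (Fintype.card Z) with h | h
    · rw [h, zero_mul] at hβ; exact absurd hβ (Nat.not_lt_zero _)
    · exact h
  have : Nonempty Z := Fintype.card_pos_iff.mp hZ
  have hF : 0 < Fintype.card (U → Z) := Fintype.card_pos
  have h1 : (Finset.univ : Finset (U → Z)) ⊆ (Finset.univ : Finset (U × U)).biUnion
      (fun p => if p.1 ≠ p.2 then Finset.univ.filter (fun z : U → Z => B p.1 p.2 (z p.1) (z p.2))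
        else ∅) := by
    intro z _
    obtain ⟨u, u', hu, hb⟩ := hcon z
    rw [Finset.mem_biUnion]
    refine ⟨(u, u'), Finset.mem_univ _, ?_⟩
    simp only
    rw [if_pos hu, Finset.mem_filter]
    exact ⟨Finset.mem_univ _, hb⟩
  have h2 := le_trans (Finset.card_le_card h1) Finset.card_biUnion_le
  rw [Finset.card_univ] at h2
  have h3 : Fintype.card (U → Z) * (K * Fintype.card Z) ≤
      Fintype.card U * Fintype.card U * (β * Fintype.card (U → Z)) := by
    calc Fintype.card (U → Z) * (K * Fintype.card Z)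
        ≤ (∑ p : U × U, (if p.1 ≠ p.2 then
          Finset.univ.filter (fun z : U → Z => B p.1 p.2 (z p.1) (z p.2)) else ∅).card) *
            (K * Fintype.card Z) := Nat.mul_le_mul_right _ h2
      _ = ∑ p : U × U, (if p.1 ≠ p.2 then
          Finset.univ.filter (fun z : U → Z => B p.1 p.2 (z p.1) (z p.2)) else ∅).card *
            (K * Fintype.card Z) := Finset.sum_mul _ _ _
      _ ≤ ∑ _p : U × U, β * Fintype.card (U → Z) := by
          apply Finset.sum_le_sum
          intro p _
          split_ifs with hp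
          · rw [← mul_assoc]
            exact pair_count (B p.1 p.2) K β p.1 p.2 hp (hB p.1 p.2 hp)
          · rw [Finset.card_empty, zero_mul]
            exact Nat.zero_le _
      _ = Fintype.card U * Fintype.card U * (β * Fintype.card (U → Z)) := by
          rw [Finset.sum_const, Finset.card_univ, Fintype.card_prod, smul_eq_mul]
  have h4 : Fintype.card (U → Z) * (Fintype.card U * Fintype.card U * β) <
      Fintype.card (U → Z) * (Fintype.card Z * K) := Nat.mul_lt_mul_of_pos_left hβ hF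
  have h5 : Fintype.card (U → Z) * (K * Fintype.card Z) =
    Fintype.card (U → Z) * (Fintype.card Z * K) := by ring
  have h6 : Fintype.card U * Fintype.card U * (β * Fintype.card (U → Z)) =
    Fintype.card (U → Z) * (Fintype.card U * Fintype.card U * β) := by ring
  omega

theorem num_aux (r : ℕ) : r * 65536 ^ r < 7 * 117649 ^ r := by
  induction r with
  | zero => norm_num
  | succ r ih =>
    have h : (65536 : ℕ) ^ r ≤ 117649 ^ r := Nat.pow_le_pow_left (by norm_num) r
    have e1 : (r + 1) * 65536 ^ (r + 1) = 65536 * (r * 65536 ^ r) + 65536 * 65536 ^ r := by ring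
    have e2 : 7 * 117649 ^ (r + 1) = 823543 * 117649 ^ r := by ring
    rw [e1, e2]
    have h3 : 0 < (117649 : ℕ) ^ r := by positivity
    omega

theorem num_bound {C r : ℕ} (h : C ≤ r) :
    2 ^ r * 2 ^ r * (C * (8 ^ (7 * r) * 7 ^ r)) < 2 ^ (7 * r) * 7 ^ (7 * r + 1) := by
  have h1 := num_aux r
  have e1 : 2 ^ r * 2 ^ r * (C * (8 ^ (7 * r) * 7 ^ r)) =
      (C * 65536 ^ r) * (2 ^ (7 * r) * 7 ^ r) := by
    have a1 : (8 : ℕ) ^ (7 * r) = 2 ^ (7 * r) * 4 ^ (7 * r) := by
      rw [← mul_pow]; norm_num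
    have a2 : (65536 : ℕ) ^ r = 2 ^ r * 2 ^ r * 4 ^ (7 * r) := by
      rw [pow_mul, ← mul_pow, ← mul_pow]; norm_num
    rw [a1, a2]; ring
  have e2 : 2 ^ (7 * r) * 7 ^ (7 * r + 1) = (7 * 117649 ^ r) * (2 ^ (7 * r) * 7 ^ r) := by
    have a1 : (7 : ℕ) ^ (7 * r + 1) = 7 * (117649 ^ r * 7 ^ r) := by
      rw [pow_succ', pow_mul, ← mul_pow]; norm_num
    rw [a1]; ring
  rw [e1, e2]
  apply Nat.mul_lt_mul_of_pos_right _ (by positivity)
  calc C * 65536 ^ r ≤ r * 65536 ^ r := Nat.mul_le_mul_right _ h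
    _ < _ := h1

open Classical in
/-- **No conflicts.** -/
theorem exists_conflict_free {n : ℕ} (R : Lf n → Finset ℕ) (C r : ℕ) (hCr : C ≤ r)
    (Θ : Finset ℕ) (X : Lf n → Prop) (hX : ∀ x, X x → (R x).card ≤ C)
    (hE : Emb n X (8 * r)) (hS : ∀ φ, ¬ Emb n (fun x => X x ∧ Stab Θ φ (R x)) r) :
    ∃ f : Lf r → Lf n, LevMono f ∧ (∀ x, X (f x)) ∧
      ∀ u u', u ≠ u' → ∀ φ ∈ R (f u'), ¬ Stab Θ φ (R (f u)) := by
  have h8 : 8 * r = 7 * r + r := by ring
  rw [h8] at hE
  obtain ⟨e, he, hXe⟩ := hE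
  have key : ∃ z : Lf r → Lf (7 * r), ∀ u u', u ≠ u' →
      ¬ (∃ φ ∈ R (e (app r u' (z u'))), Stab Θ φ (R (e (app r u (z u))))) := by
    apply pair_avoid (fun u u' v w => ∃ φ ∈ R (e (app r u' w)), Stab Θ φ (R (e (app r u v))))
      (7 ^ (7 * r + 1)) (C * (8 ^ (7 * r) * 7 ^ r))
    · intro u u' _ w
      have hsub : (Finset.univ.filter (fun v : Lf (7 * r) =>
          ∃ φ ∈ R (e (app r u' w)), Stab Θ φ (R (e (app r u v))))) ⊆
          (R (e (app r u' w))).biUnion (fun φ => Finset.univ.filter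
            (fun v : Lf (7 * r) => X (e (app r u v)) ∧ Stab Θ φ (R (e (app r u v))))) := by
        intro v hv
        rw [Finset.mem_filter] at hv
        obtain ⟨φ, hφ, hst⟩ := hv.2
        rw [Finset.mem_biUnion]
        exact ⟨φ, hφ, Finset.mem_filter.mpr ⟨Finset.mem_univ _, hXe _, hst⟩⟩
      have hone : ∀ φ, (Finset.univ.filter (fun v : Lf (7 * r) =>
          X (e (app r u v)) ∧ Stab Θ φ (R (e (app r u v))))).card * 7 ^ (7 * r + 1) ≤
          8 ^ (7 * r) * 7 ^ r := by
        intro φ
        have := card_of_not_emb (7 * r)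
          (fun v : Lf (7 * r) => X (e (app r u v)) ∧ Stab Θ φ (R (e (app r u v)))) r
          (fun hemb => hS φ (Emb.pull (X := fun x => X x ∧ Stab Θ φ (R x))
            (he.comp (levMono_app r u)) hemb))
        convert this
      have hfin : (Finset.univ.filter (fun v : Lf (7 * r) =>
          ∃ φ ∈ R (e (app r u' w)), Stab Θ φ (R (e (app r u v))))).card * 7 ^ (7 * r + 1)
          ≤ C * (8 ^ (7 * r) * 7 ^ r) := by
       calc (Finset.univ.filter (fun v : Lf (7 * r) =>
          ∃ φ ∈ R (e (app r u' w)), Stab Θ φ (R (e (app r u v))))).card * 7 ^ (7 * r + 1)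
          ≤ (∑ φ ∈ R (e (app r u' w)), (Finset.univ.filter
            (fun v : Lf (7 * r) => X (e (app r u v)) ∧ Stab Θ φ (R (e (app r u v))))).card) *
              7 ^ (7 * r + 1) :=
            Nat.mul_le_mul_right _ (le_trans (Finset.card_le_card hsub) Finset.card_biUnion_le)
        _ = ∑ φ ∈ R (e (app r u' w)), (Finset.univ.filter
            (fun v : Lf (7 * r) => X (e (app r u v)) ∧ Stab Θ φ (R (e (app r u v))))).card *
              7 ^ (7 * r + 1) := Finset.sum_mul _ _ _
        _ ≤ ∑ _φ ∈ R (e (app r u' w)), 8 ^ (7 * r) * 7 ^ r :=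
            Finset.sum_le_sum (fun φ _ => hone φ)
        _ ≤ C * (8 ^ (7 * r) * 7 ^ r) := by
            rw [Finset.sum_const, smul_eq_mul]
            exact Nat.mul_le_mul_right _ (hX _ (hXe _))
      convert hfin
    · rw [card_Lf, card_Lf]
      exact num_bound hCr
  obtain ⟨z, hz⟩ := key
  refine ⟨fun u => e (app r u (z u)), ?_, fun u => hXe _, ?_⟩
  · intro x y y' h
    have hxy : x ≠ y := by
      rw [← lev_lt_iff r x y]
      exact lt_of_lt_of_le h (lev_le _ _ _)
    by_cases hxy' : x = y'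
    · subst hxy'
      have h1 : LevMono e := he
      have h2 := h1.ne (app_ne r hxy (z x) (z y))
      rw [lev_self]
      exact (lev_lt_iff _ _ _).mpr h2
    · apply he
      rw [lev_app_diff r x y hxy, lev_app_diff r x y' hxy']
      exact h
  · intro u u' hu φ hφ hst
    exact hz u u' hu ⟨φ, hφ, hst⟩

end Pool.Agent.STK
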