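import Pool.Agent.STK.Defs

/-! Most inputs are good. -/

namespace Pool.Agent.STK

open Classical in
/-- The number of inputs with a property. -/
noncomputable def num {F : Type} [Fintype F] {n : ℕ} (p : (Lf n → F) → Prop) : ℕ :=
  (Finset.univ.filter p).card

section
variable {F : Type} [Fintype F]

theorem num_mono {n : ℕ} {p q : (Lf n → F) → Prop} (h : ∀ x, p x → q x) : num p ≤ num q := by
  classical
  unfold num
  apply Finset.card_le_card
  intro x hx
  simp only [Finset.mem_filter, Finset.mem_univ, true_and] at hx ⊢
  exact h x hx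

theorem num_or {n : ℕ} (p q : (Lf n → F) → Prop) : num (fun x => p x ∨ q x) ≤ num p + num q := by
  classical
  unfold num
  refine le_trans (Finset.card_le_card ?_) (Finset.card_union_le _ _)
  intro x hx
  simp only [Finset.mem_filter, Finset.mem_univ, true_and, Finset.mem_union] at hx ⊢
  exact hx

theorem num_exists {n : ℕ} {ι : Type} (s : Finset ι) (p : ι → (Lf n → F) → Prop) (K : ℕ)
    (h : ∀ i ∈ s, num (p i) * Fintype.card F ≤ K) :
    num (fun x => ∃ i ∈ s, p i x) * Fintype.card F ≤ s.card * K := by
  classical
  have h1 : num (fun x => ∃ i ∈ s, p i x) ≤ ∑ i ∈ s, num (p i) := by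
    unfold num
    refine le_trans (Finset.card_le_card ?_) (Finset.card_biUnion_le (s := s)
      (t := fun i => Finset.univ.filter (p i)))
    intro x hx
    simp only [Finset.mem_filter, Finset.mem_univ, true_and, Finset.mem_biUnion] at hx ⊢
    exact hx
  calc num (fun x => ∃ i ∈ s, p i x) * Fintype.card F
      ≤ (∑ i ∈ s, num (p i)) * Fintype.card F := Nat.mul_le_mul_right _ h1
    _ = ∑ i ∈ s, num (p i) * Fintype.card F := Finset.sum_mul _ _ _
    _ ≤ ∑ _i ∈ s, K := Finset.sum_le_sum h
    _ = s.card * K := by rw [Finset.sum_const, smul_eq_mul]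

/-- The two halves of an input, the one below `b` first. -/
def spl {n : ℕ} (b : Bool) : (Lf (n + 1) → F) ≃ (Lf n → F) × (Lf n → F) where
  toFun x := (fun l => x (b, l), fun l => x (!b, l))
  invFun p := fun l => if l.1 = b then p.1 l.2 else p.2 l.2
  left_inv x := by
    funext l
    obtain ⟨c, l⟩ := l
    by_cases h : c = b
    · subst h; simp
    · have : c = !b := by cases c <;> cases b <;> simp_all
      subst this
      simp
  right_inv p := by
    ext l
    · simp
    · simp

theorem card_input (n : ℕ) : Fintype.card (Lf n → F) = Fintype.card F ^ (2 ^ n) := by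
  rw [Fintype.card_fun, card_Lf]

/-- Counting by first fixing the half below `b`. -/
theorem num_fix {n : ℕ} (b : Bool) (p : (Lf n → F) → (Lf n → F) → Prop) (K : ℕ)
    (h : ∀ y, num (p y) * Fintype.card F ≤ K) :
    num (fun x : Lf (n + 1) → F => p (fun l => x (b, l)) (fun l => x (!b, l))) * Fintype.card F
      ≤ Fintype.card F ^ (2 ^ n) * K := by
  classical
  have h1 : num (fun x : Lf (n + 1) → F => p (fun l => x (b, l)) (fun l => x (!b, l))) =
      ∑ y : (Lf n → F), num (p y) := by
    unfold num
    rw [← Finset.card_sigma]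
    apply Finset.card_bij (fun x _ => (⟨fun l => x (b, l), fun l => x (!b, l)⟩ :
      (_ : Lf n → F) × (Lf n → F)))
    · intro x hx
      simp only [Finset.mem_filter, Finset.mem_univ, true_and, Finset.mem_sigma] at hx ⊢
      exact hx
    · intro x _ y _ hxy
      apply (spl b).injective
      simp only [Sigma.mk.injEq, heq_eq_eq] at hxy
      exact Prod.ext hxy.1 hxy.2
    · intro s hs
      simp only [Finset.mem_filter, Finset.mem_univ, true_and, Finset.mem_sigma] at hs
      have e := (spl b).apply_symm_apply (s.1, s.2)
      have e1 : (fun l => (spl b).symm (s.1, s.2) (b, l)) = s.1 := congrArg Prod.fst e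
      have e2 : (fun l => (spl b).symm (s.1, s.2) (!b, l)) = s.2 := congrArg Prod.snd e
      refine ⟨(spl b).symm (s.1, s.2), ?_, ?_⟩
      · simp only [Finset.mem_filter, Finset.mem_univ, true_and]
        rw [e1, e2]
        exact hs
      · rw [e1, e2]
  rw [h1, Finset.sum_mul, ← card_input]
  calc ∑ y : (Lf n → F), num (p y) * Fintype.card F ≤ ∑ _y : (Lf n → F), K :=
        Finset.sum_le_sum (fun y _ => h y)
    _ = Fintype.card (Lf n → F) * K := by
        rw [Finset.sum_const, smul_eq_mul, Finset.card_univ]

end

section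
variable {F : Type} [Field F] [Fintype F]

theorem num_tval (n : ℕ) : ∀ c : F, num (fun x : Lf n → F => tval n x = c) * Fintype.card F ≤
    2 ^ n * Fintype.card F ^ (2 ^ n) := by
  induction n with
  | zero =>
    intro c
    have h : num (fun x : Lf 0 → F => tval 0 x = c) ≤ 1 := by
      classical
      unfold num
      rw [Finset.card_le_one]
      intro x hx y hy
      simp only [Finset.mem_filter, Finset.mem_univ, true_and] at hx hy
      funext l
      cases l
      exact hx.trans hy.symm
    calc _ ≤ 1 * Fintype.card F := Nat.mul_le_mul_right _ h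
      _ = _ := by simp
  | succ n ih =>
    intro c
    by_cases hc : c = 1
    · have h1 := num_mono (F := F) (n := n + 1) (p := fun x => tval (n + 1) x = c)
        (q := fun x => (tval n (fun l => x (false, l)) = 0) ∨ (tval n (fun l => x (true, l)) = 0)) (by
          intro x hx
          have hx' : tval n (fun l => x (false, l)) * tval n (fun l => x (true, l)) + 1 = c := hx
          rw [hc] at hx'
          have : tval n (fun l => x (false, l)) * tval n (fun l => x (true, l)) = 0 := by
            linear_combination hx'
          exact mul_eq_zero.mp this)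
      have h2 := num_or (F := F) (n := n + 1) (fun x => tval n (fun l => x (false, l)) = 0)
        (fun x => tval n (fun l => x (true, l)) = 0)
      have h3 := num_fix (F := F) (n := n) true (fun _ z => tval n z = 0) _ (fun _ => ih 0)
      have h4 := num_fix (F := F) (n := n) false (fun _ z => tval n z = 0) _ (fun _ => ih 0)
      simp only [Bool.not_true, Bool.not_false] at h3 h4
      calc _ ≤ (num (fun x : Lf (n + 1) → F => tval n (fun l => x (false, l)) = 0) +
            num (fun x : Lf (n + 1) → F => tval n (fun l => x (true, l)) = 0)) * Fintype.card F :=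
            Nat.mul_le_mul_right _ (h1.trans h2)
        _ ≤ Fintype.card F ^ (2 ^ n) * (2 ^ n * Fintype.card F ^ (2 ^ n)) +
            Fintype.card F ^ (2 ^ n) * (2 ^ n * Fintype.card F ^ (2 ^ n)) := by
            rw [Nat.add_mul]; exact Nat.add_le_add h3 h4
        _ = _ := by ring
    · have h1 := num_mono (F := F) (n := n + 1) (p := fun x => tval (n + 1) x = c)
        (q := fun x => (fun (y z : Lf n → F) => tval n z = (c - 1) / tval n y)
          (fun l => x (false, l)) (fun l => x (!false, l))) (by
          intro x hx
          have hx' : tval n (fun l => x (false, l)) * tval n (fun l => x (true, l)) + 1 = c := hx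
          have hne : tval n (fun l => x (false, l)) ≠ 0 := by
            intro h0
            rw [h0, zero_mul, zero_add] at hx'
            exact hc hx'.symm
          simp only [Bool.not_false]
          rw [eq_div_iff hne]
          linear_combination hx')
      have h3 := num_fix (F := F) (n := n) false (fun y z => tval n z = (c - 1) / tval n y) _
        (fun y => ih ((c - 1) / tval n y))
      calc _ ≤ _ := Nat.mul_le_mul_right _ h1
        _ ≤ _ := h3
        _ ≤ _ := by
            have : Fintype.card F ^ (2 ^ n) * (2 ^ n * Fintype.card F ^ (2 ^ n)) =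
              2 ^ n * Fintype.card F ^ (2 ^ (n + 1)) := by ring
            rw [this]
            exact Nat.mul_le_mul_right _ (Nat.pow_le_pow_right (by norm_num) (by omega))

omit [Fintype F] in
theorem tr_big (n : ℕ) : ∀ (l : Lf n) (k : ℕ) (x : Lf n → F), tr n l (n + 1 + k) x = tval n x := by
  induction n with
  | zero =>
    intro l k x
    cases l
    have : 0 + 1 + k = k + 1 := by omega
    rw [this]
    rfl
  | succ n ih =>
    intro l k x
    have : n + 1 + 1 + k = (n + 1 + k) + 1 := by omega
    rw [this]
    simp only [tr, tval]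
    rw [ih]
    obtain ⟨b, l⟩ := l
    cases b
    · simp; ring
    · simp

theorem num_tr (n : ℕ) (l : Lf (n + 1)) (j : ℕ) :
    num (fun x : Lf (n + 1) → F => tr (n + 1) l (j + 1) x = 0) * Fintype.card F ≤
      2 ^ n * Fintype.card F ^ (2 ^ (n + 1)) := by
  have h1 := num_mono (F := F) (n := n + 1) (p := fun x => tr (n + 1) l (j + 1) x = 0)
    (q := fun x => (fun (y z : Lf n → F) => tval n z = - 1 / tr n l.2 j y)
      (fun m => x (l.1, m)) (fun m => x (!l.1, m))) (by
      intro x hx
      have hx' : tval n (fun m => x (!l.1, m)) * tr n l.2 j (fun m => x (l.1, m)) + 1 = 0 := hx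
      have hne : tr n l.2 j (fun m => x (l.1, m)) ≠ 0 := by
        intro h0
        rw [h0, mul_zero, zero_add] at hx'
        exact one_ne_zero hx'
      show tval n (fun m => x (!l.1, m)) = - 1 / tr n l.2 j (fun m => x (l.1, m))
      rw [eq_div_iff hne]
      linear_combination hx')
  have h3 := num_fix (F := F) (n := n) l.1 (fun y z => tval n z = - 1 / tr n l.2 j y) _
    (fun y => num_tval n (- 1 / tr n l.2 j y))
  calc _ ≤ _ := Nat.mul_le_mul_right _ h1
    _ ≤ _ := h3
    _ = _ := by ring

theorem num_bad (n : ℕ) : num (fun x : Lf n → F => ¬ Good n x) * Fintype.card F ≤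
    (n + 1) * 4 ^ n * Fintype.card F ^ (2 ^ n) := by
  induction n with
  | zero =>
    have h := num_tval (F := F) 0 0
    have h1 := num_mono (F := F) (n := 0) (p := fun x => ¬ Good 0 x)
      (q := fun x => tval 0 x = 0) (by
        intro x hx
        exact not_not.mp hx)
    calc _ ≤ _ := Nat.mul_le_mul_right _ h1
      _ ≤ _ := h
      _ = _ := by simp
  | succ n ih =>
    have h1 := num_mono (F := F) (n := n + 1) (p := fun x => ¬ Good (n + 1) x)
      (q := fun x => ((¬ Good n (fun l => x (false, l))) ∨ (¬ Good n (fun l => x (true, l)))) ∨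
        ∃ i ∈ (Finset.univ : Finset (Lf (n + 1) × Fin (n + 2))),
          tr (n + 1) i.1 ((i.2 : ℕ) + 1) x = 0) (by
        intro x hx
        by_contra hcon
        rw [not_or, not_or] at hcon
        obtain ⟨⟨hf, ht⟩, hex⟩ := hcon
        rw [not_not] at hf ht
        apply hx
        refine ⟨?_, ?_⟩
        · intro b
          cases b
          · exact hf
          · exact ht
        · intro l j h0
          apply hex
          by_cases hj : j < n + 2
          · exact ⟨(l, ⟨j, hj⟩), Finset.mem_univ _, h0⟩
          · refine ⟨(l, ⟨n + 1, by omega⟩), Finset.mem_univ _, ?_⟩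
            show tr (n + 1) l (n + 1 + 1) x = 0
            obtain ⟨k, hk⟩ : ∃ k, j = n + 2 + k := ⟨j - (n + 2), by omega⟩
            have e1 := tr_big (F := F) (n + 1) l 0 x
            have e2 := tr_big (F := F) (n + 1) l (k + 1) x
            have e3 : n + 1 + 1 + (k + 1) = j + 1 := by omega
            rw [e3, h0] at e2
            rw [add_zero] at e1
            rw [e1, ← e2])
    have h2 := num_or (F := F) (n := n + 1)
      (fun x => (¬ Good n (fun l => x (false, l))) ∨ (¬ Good n (fun l => x (true, l))))
      (fun x => ∃ i ∈ (Finset.univ : Finset (Lf (n + 1) × Fin (n + 2))),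
          tr (n + 1) i.1 ((i.2 : ℕ) + 1) x = 0)
    have h3 := num_or (F := F) (n := n + 1) (fun x => ¬ Good n (fun l => x (false, l)))
      (fun x => ¬ Good n (fun l => x (true, l)))
    have h4 := num_fix (F := F) (n := n) true (fun _ z => ¬ Good n z) _ (fun _ => ih)
    have h5 := num_fix (F := F) (n := n) false (fun _ z => ¬ Good n z) _ (fun _ => ih)
    simp only [Bool.not_true, Bool.not_false] at h4 h5
    have h6 := num_exists (F := F) (Finset.univ : Finset (Lf (n + 1) × Fin (n + 2)))
      (fun i x => tr (n + 1) i.1 ((i.2 : ℕ) + 1) x = 0) _ (fun i _ => num_tr n i.1 i.2)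
    rw [Finset.card_univ, Fintype.card_prod, card_Lf, Fintype.card_fin] at h6
    generalize num (fun x : Lf (n + 1) → F => ¬ Good (n + 1) x) = B at *
    generalize num (fun x : Lf (n + 1) → F => ((¬ Good n (fun l => x (false, l))) ∨
      (¬ Good n (fun l => x (true, l)))) ∨
        ∃ i ∈ (Finset.univ : Finset (Lf (n + 1) × Fin (n + 2))),
          tr (n + 1) i.1 ((i.2 : ℕ) + 1) x = 0) = B1 at *
    generalize num (fun x : Lf (n + 1) → F => (¬ Good n (fun l => x (false, l))) ∨
      (¬ Good n (fun l => x (true, l)))) = B2 at *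
    generalize num (fun x : Lf (n + 1) → F =>
        ∃ i ∈ (Finset.univ : Finset (Lf (n + 1) × Fin (n + 2))),
          tr (n + 1) i.1 ((i.2 : ℕ) + 1) x = 0) = B3 at *
    generalize num (fun x : Lf (n + 1) → F => ¬ Good n (fun l => x (false, l))) = B4 at *
    generalize num (fun x : Lf (n + 1) → F => ¬ Good n (fun l => x (true, l))) = B5 at *
    generalize Fintype.card F = q at *
    have e : q ^ (2 ^ (n + 1)) = q ^ (2 ^ n) * q ^ (2 ^ n) := by ring
    rw [e] at h6 ⊢
    generalize q ^ (2 ^ n) = Q at *
    have p1 : (2 : ℕ) ^ (n + 1) * (n + 2) * (2 ^ n * (Q * Q)) = 2 * (n + 2) * 4 ^ n * (Q * Q) := by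
      have : (4 : ℕ) ^ n = 2 ^ n * 2 ^ n := by
        rw [← mul_pow]
        norm_num
      rw [this]
      ring
    rw [p1] at h6
    calc B * q ≤ (B4 + B5 + B3) * q := by
          apply Nat.mul_le_mul_right
          omega
      _ = B4 * q + B5 * q + B3 * q := by ring
      _ ≤ Q * ((n + 1) * 4 ^ n * Q) + Q * ((n + 1) * 4 ^ n * Q) +
            2 * (n + 2) * 4 ^ n * (Q * Q) := by omega
      _ ≤ (n + 1 + 1) * 4 ^ (n + 1) * (Q * Q) := by
          have : (n + 1 + 1) * 4 ^ (n + 1) * (Q * Q) = Q * ((n + 1) * 4 ^ n * Q) +
            Q * ((n + 1) * 4 ^ n * Q) + 2 * (n + 2) * 4 ^ n * (Q * Q) + 2 * 4 ^ n * (Q * Q) := by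
            ring
          omega

end

/-- All but a fraction `(n + 1) 4 ^ n / q` of the inputs are good. -/
theorem count_good (F : Type) [Field F] [Fintype F] [DecidableEq F] (n : ℕ) :
    Nat.card {x : Lf n → F // ¬ Good n x} * Fintype.card F ≤
      (n + 1) * 4 ^ n * Fintype.card F ^ (2 ^ n) := by
  classical
  have h : Nat.card {x : Lf n → F // ¬ Good n x} = num (fun x : Lf n → F => ¬ Good n x) := by
    rw [Nat.card_eq_fintype_card, Fintype.card_subtype]
    unfold num
    congr
  rw [h]
  exact num_bad n

end Pool.Agent.STK
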