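import Pool.Agent.STK.Leaf

/-!
The balanced formula `x y + 1`, good inputs, combs, programs with a stack over a large alphabet.
-/

namespace Pool.Agent.STK

variable {F : Type} [Field F]

/-- The part of an input below the child `b` of the root. -/
def sub {n : ℕ} (x : Lf (n + 1) → F) (b : Bool) : Lf n → F := fun l => x (b, l)

/-- The value at the root of the complete binary tree of height `n` whose leaves are labelled by
`x` and whose inner nodes all compute `a * b + 1`. -/
def tval : (n : ℕ) → (Lf n → F) → F
  | 0, x => x ()
  | (n + 1), x => tval n (sub x false) * tval n (sub x true) + 1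

/-- `tr n l j x`: the value at the root if the value at the node of depth `j` on the path to `l`
is replaced by `0` (for `j ≤ n`); for `j > n` the value itself. -/
def tr : (n : ℕ) → Lf n → ℕ → (Lf n → F) → F
  | 0, _, 0, _ => 0
  | 0, _, (_ + 1), x => x ()
  | (_ + 1), _, 0, _ => 0
  | (n + 1), l, (j + 1), x => tval n (sub x (!l.1)) * tr n l.2 j (sub x l.1) + 1

/-- Good inputs: all values `tr`, `j ≥ 1`, are nonzero, in all subtrees. -/
def Good : (n : ℕ) → (Lf n → F) → Prop
  | 0, x => x () ≠ 0
  | (n + 1), x => (∀ b, Good n (sub x b)) ∧ ∀ (l : Lf (n + 1)) (j : ℕ), tr (n + 1) l (j + 1) x ≠ 0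

/-- `IsComb n l ys`: the leaves `ys` branch off the leaf `l` at increasing levels. -/
inductive IsComb : (n : ℕ) → Lf n → List (Lf n) → Prop
  | nil (n : ℕ) (l : Lf n) : IsComb n l []
  | const (n : ℕ) (b : Bool) (l : Lf n) (ys : List (Lf n)) (h : IsComb n l ys) :
      IsComb (n + 1) (b, l) (ys.map (fun z => ((b, z) : Lf (n + 1))))
  | letter (n : ℕ) (b : Bool) (l : Lf n) (y : Lf n) (ys : List (Lf n)) (h : IsComb n l ys) :
      IsComb (n + 1) (b, l) (((!b, y) : Lf (n + 1)) :: ys.map (fun z => ((b, z) : Lf (n + 1))))

/-- The members of a list that are followed by an odd number of further members. -/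
def colA {α : Type} : List α → Set α
  | [] => ∅
  | (y :: ys) => {z | z ∈ colA ys ∨ (z = y ∧ ys.length % 2 = 1)}

/-- The members of a list that are followed by an even number of further members. -/
def colB {α : Type} : List α → Set α
  | [] => ∅
  | (y :: ys) => {z | z ∈ colB ys ∨ (z = y ∧ ys.length % 2 = 0)}

/-- A nondeterministic program with a stack over the alphabet `Γ`, reading variables in `I` with
values in `A`: a directed graph with unlabelled edges, edges that test whether a variable has a
given value, edges that push a symbol and edges that pop a symbol. -/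
structure SBP (V Γ I A : Type) where
  /-- source -/
  src : V
  /-- accepting node -/
  acc : V
  /-- unlabelled edges -/
  free : V → V → Prop
  /-- edges labelled by a variable and a value -/
  test : V → I → A → V → Prop
  /-- edges that push a symbol on the stack -/
  push : V → Γ → V → Prop
  /-- edges that pop a symbol, which has to be the top of the stack -/
  pop : V → Γ → V → Prop

/-- `P.Walk y u σ v τ l`: there is a walk from node `u` with stack `σ` to node `v` with stack `τ` on
the input `y`, and `l` is the list of the variables tested along it, in order and with repetitions -/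
inductive SBP.Walk {V Γ I A : Type} (P : SBP V Γ I A) (y : I → A) :
    V → List Γ → V → List Γ → List I → Prop
  | nil (u : V) (σ : List Γ) : SBP.Walk P y u σ u σ []
  | free {u v w : V} {σ τ : List Γ} {l : List I} :
      P.free u v → SBP.Walk P y v σ w τ l → SBP.Walk P y u σ w τ l
  | test {u v w : V} {σ τ : List Γ} {i : I} {l : List I} :
      P.test u i (y i) v → SBP.Walk P y v σ w τ l → SBP.Walk P y u σ w τ (i :: l)
  | push {u v w : V} {a : Γ} {σ τ : List Γ} {l : List I} :
      P.push u a v → SBP.Walk P y v (a :: σ) w τ l → SBP.Walk P y u σ w τ l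
  | pop {u v w : V} {a : Γ} {σ τ : List Γ} {l : List I} :
      P.pop u a v → SBP.Walk P y v σ w τ l → SBP.Walk P y u (a :: σ) w τ l

/-- An accepting walk, from the source with empty stack to the accepting node with empty stack, that
tests the variables in the list `l`. -/
def SBP.AccWalk {V Γ I A : Type} (P : SBP V Γ I A) (y : I → A) (l : List I) : Prop :=
  P.Walk y P.src [] P.acc [] l

/-- One step from the configuration `c` (node, stack) to the configuration `d` on the input `y`. -/
def SBP.Next {V Γ I A : Type} (P : SBP V Γ I A) (y : I → A) (c d : V × List Γ) : Prop :=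
  (P.free c.1 d.1 ∧ d.2 = c.2) ∨ (∃ i, P.test c.1 i (y i) d.1 ∧ d.2 = c.2) ∨
    (∃ a, P.push c.1 a d.1 ∧ d.2 = a :: c.2) ∨ (∃ a, P.pop c.1 a d.1 ∧ c.2 = a :: d.2)

/-- Deterministic programs: at most one step from every configuration. -/
def SBP.Det {V Γ I A : Type} (P : SBP V Γ I A) : Prop :=
  ∀ y c d e, P.Next y c d → P.Next y c e → d = e

/-- The language: words of `2 ^ h` labels and one more symbol, which is the value at the root. -/
def EvalLang (F : Type) [Field F] (h : ℕ) (y : Option (Lf h) → F) : Prop :=
  tval h (fun l => y (some l)) = y none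

end Pool.Agent.STK
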