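import Pool.Agent.STK.Leaf

/-!
Embedded complete binary trees: sets of leaves without an embedded tree of height `k` are small.
-/

namespace Pool.Agent.STK

/-- Level monotone maps between leaves of complete binary trees. -/
def LevMono {k n : ℕ} (e : Lf k → Lf n) : Prop :=
  ∀ x y z, lev k x y < lev k x z → lev n (e x) (e y) < lev n (e x) (e z)

theorem LevMono.comp {j k n : ℕ} {e : Lf k → Lf n} {f : Lf j → Lf k} (he : LevMono e)
    (hf : LevMono f) : LevMono (fun x => e (f x)) :=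
  fun _ _ _ h => he _ _ _ (hf _ _ _ h)

theorem LevMono.ne {k n : ℕ} {e : Lf k → Lf n} (he : LevMono e) {x y : Lf k} (h : x ≠ y) :
    e x ≠ e y := by
  have h1 := (lev_lt_iff k x y).mpr h
  have h2 : lev k x y < lev k x x := by rw [lev_self]; exact h1
  have h3 := he _ _ _ h2
  rw [lev_self] at h3
  exact (lev_lt_iff _ _ _).mp h3

theorem levMono_app {n : ℕ} (D : ℕ) (u : Lf D) : LevMono (fun z : Lf n => app D u z) := by
  intro x y z h
  rw [lev_app_same, lev_app_same]
  omega

/-- `Emb n X k`: the set `X` of leaves contains an embedded complete binary tree of height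
`k`. -/
def Emb (n : ℕ) (X : Lf n → Prop) (k : ℕ) : Prop :=
  ∃ e : Lf k → Lf n, LevMono e ∧ ∀ x, X (e x)

theorem Emb.mono {n : ℕ} {X Y : Lf n → Prop} {k : ℕ} (h : Emb n X k) (hXY : ∀ x, X x → Y x) :
    Emb n Y k := by
  obtain ⟨e, he, hx⟩ := h
  exact ⟨e, he, fun x => hXY _ (hx x)⟩

theorem Emb.down {n : ℕ} {X : Lf n → Prop} {k : ℕ} (j : ℕ) (h : Emb n X (k + j)) :
    Emb n X k := by
  obtain ⟨e, he, hx⟩ := h
  exact ⟨fun z => e (app j default z), he.comp (levMono_app j default), fun x => hx _⟩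

theorem Emb.of_le {n : ℕ} {X : Lf n → Prop} {k k' : ℕ} (h : Emb n X k) (hk : k' ≤ k) :
    Emb n X k' := by
  obtain ⟨j, rfl⟩ := Nat.exists_eq_add_of_le hk
  exact h.down j

theorem Emb.pull {j n : ℕ} {X : Lf n → Prop} {k : ℕ} {e : Lf j → Lf n} (he : LevMono e)
    (h : Emb j (fun z => X (e z)) k) : Emb n X k := by
  obtain ⟨f, hf, hx⟩ := h
  exact ⟨fun z => e (f z), he.comp hf, hx⟩

theorem Emb.zero {n : ℕ} {X : Lf n → Prop} (x : Lf n) (hx : X x) : Emb n X 0 := by
  refine ⟨fun _ => x, ?_, fun _ => hx⟩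
  intro a b c h
  exact absurd h (Nat.not_lt_zero _)

theorem Emb.child {n : ℕ} {X : Lf (n + 1) → Prop} {k : ℕ} (b : Bool)
    (h : Emb n (fun l => X (b, l)) k) : Emb (n + 1) X k := by
  obtain ⟨e, he, hx⟩ := h
  refine ⟨fun z => (b, e z), ?_, hx⟩
  intro x y z hl
  have := he _ _ _ hl
  change (if b = b then lev n (e x) (e y) + 1 else 0) < 
    (if b = b then lev n (e x) (e z) + 1 else 0)
  rw [if_pos rfl, if_pos rfl]
  omega

theorem Emb.node {n : ℕ} {X : Lf (n + 1) → Prop} {k : ℕ}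
    (h : ∀ b, Emb n (fun l => X (b, l)) k) : Emb (n + 1) X (k + 1) := by
  choose e he hx using h
  refine ⟨fun z => (z.1, e z.1 z.2), ?_, fun z => hx z.1 z.2⟩
  rintro ⟨a, x⟩ ⟨b, y⟩ ⟨c, z⟩ hl
  change (if a = b then lev k x y + 1 else 0) < (if a = c then lev k x z + 1 else 0) at hl
  change (if a = b then lev n (e a x) (e b y) + 1 else 0) <
    (if a = c then lev n (e a x) (e c z) + 1 else 0)
  by_cases hc : a = c
  · subst hc
    rw [if_pos rfl] at hl ⊢
    by_cases hb : a = b
    · subst hb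
      rw [if_pos rfl] at hl ⊢
      have := he a x y z (by omega)
      omega
    · rw [if_neg hb]
      omega
  · rw [if_neg hc] at hl
    exact absurd hl (Nat.not_lt_zero _)

open Classical in
theorem card_split {n : ℕ} (X : Lf (n + 1) → Prop) :
    (Finset.univ.filter X).card = (Finset.univ.filter (fun l : Lf n => X (false, l))).card +
      (Finset.univ.filter (fun l : Lf n => X (true, l))).card := by
  rw [Finset.card_filter, Finset.card_filter, Finset.card_filter]
  refine ((Fintype.sum_prod_type (α₁ := Bool) (α₂ := Lf n)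
    (fun p => if X p then 1 else 0)).trans (Fintype.sum_bool _)).trans ?_
  exact Nat.add_comm _ _

open Classical in
/-- Sets without embedded trees of height `k` are small. -/
theorem card_of_not_emb : ∀ (n : ℕ) (X : Lf n → Prop) (k : ℕ), ¬ Emb n X k →
    (Finset.univ.filter X).card * 7 ^ (n + 1) ≤ 8 ^ n * 7 ^ k := by
  intro n
  induction n with
  | zero =>
    intro X k h
    rcases k with _ | k
    · have : (Finset.univ.filter X) = ∅ := by
        rw [Finset.filter_eq_empty_iff]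
        intro x _ hx
        exact h (Emb.zero x hx)
      rw [this]; simp
    · have h1 : (Finset.univ.filter X).card ≤ 1 := by
        refine le_trans (Finset.card_le_univ _) ?_
        rw [card_Lf]; norm_num
      calc (Finset.univ.filter X).card * 7 ^ (0 + 1) ≤ 1 * 7 ^ (0 + 1) :=
            Nat.mul_le_mul_right _ h1
        _ ≤ 8 ^ 0 * 7 ^ (k + 1) := by
            rw [pow_succ 7 k]
            have : 1 ≤ 7 ^ k := Nat.one_le_pow _ _ (by norm_num)
            omega
  | succ n ih =>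
    intro X k h
    rcases k with _ | k
    · have : (Finset.univ.filter X) = ∅ := by
        rw [Finset.filter_eq_empty_iff]
        intro x _ hx
        exact h (Emb.zero x hx)
      rw [this]; simp
    · rw [card_split]
      have hf : ¬ Emb n (fun l => X (false, l)) (k + 1) := fun e => h (Emb.child false e)
      have ht : ¬ Emb n (fun l => X (true, l)) (k + 1) := fun e => h (Emb.child true e)
      have hor : ∃ b, ¬ Emb n (fun l => X (b, l)) k := by
        by_contra hcon
        push Not at hcon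
        exact h (Emb.node hcon)
      have i1 := ih _ _ hf
      have i2 := ih _ _ ht
      obtain ⟨b, hb⟩ := hor
      have i3 := ih _ _ hb
      have e1 : (7 : ℕ) ^ (n + 1 + 1) = 7 * 7 ^ (n + 1) := by ring
      have e2 : (8 : ℕ) ^ (n + 1) * 7 ^ (k + 1) = 7 * (8 ^ n * 7 ^ k + 8 ^ n * 7 ^ (k + 1)) := by
        ring
      rw [e1, e2, add_mul]
      rcases b with _ | _
      · nlinarith [i1, i2, i3]
      · nlinarith [i1, i2, i3]

open Classical in
/-- A set with at least half of the leaves contains an embedded tree of height `n / 4`. -/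
theorem emb_of_half (n : ℕ) (X : Lf n → Prop)
    (h : 2 ^ n ≤ 2 * (Finset.univ.filter X).card) : Emb n X (n / 4) := by
  by_contra hcon
  have h1 := card_of_not_emb n X (n / 4) hcon
  have h2 : 2 ^ n * 7 ^ (n + 1) ≤ 2 * (8 ^ n * 7 ^ (n / 4)) := by
    calc 2 ^ n * 7 ^ (n + 1) ≤ 2 * (Finset.univ.filter X).card * 7 ^ (n + 1) :=
          Nat.mul_le_mul_right _ h
      _ = 2 * ((Finset.univ.filter X).card * 7 ^ (n + 1)) := by ring
      _ ≤ _ := Nat.mul_le_mul_left _ h1
  have e8 : (8 : ℕ) ^ n = 2 ^ n * 4 ^ n := by rw [← mul_pow]; norm_num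
  rw [e8] at h2
  have h3 : 7 ^ (n + 1) ≤ 2 * (4 ^ n * 7 ^ (n / 4)) := by
    have : 2 ^ n * 7 ^ (n + 1) ≤ 2 ^ n * (2 * (4 ^ n * 7 ^ (n / 4))) := by
      calc _ ≤ _ := h2
        _ = _ := by ring
    exact Nat.le_of_mul_le_mul_left this (by positivity)
  obtain ⟨m, r, hr, hn⟩ : ∃ m r, r < 4 ∧ n = 4 * m + r := ⟨n / 4, n % 4,
    Nat.mod_lt _ (by norm_num), (Nat.div_add_mod n 4).symm⟩
  have hdiv : n / 4 = m := by omega
  rw [hdiv] at h3
  have h4 : 7 ^ (n + 1) = 7 * (7 ^ r * (7 ^ 3) ^ m * 7 ^ m) := by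
    rw [hn, ← pow_mul, ← pow_add, ← pow_add, ← pow_succ']
    congr 1
    ring
  have h5 : 2 * (4 ^ n * 7 ^ m) = 2 * (4 ^ r * (4 ^ 4) ^ m * 7 ^ m) := by
    rw [hn, ← pow_mul, ← pow_add]
    congr 3
    ring
  rw [h4, h5] at h3
  have h6 : (4 : ℕ) ^ r * (4 ^ 4) ^ m ≤ 7 ^ r * (7 ^ 3) ^ m :=
    Nat.mul_le_mul (Nat.pow_le_pow_left (by norm_num) _) (Nat.pow_le_pow_left (by norm_num) _)
  have h7 : (4 : ℕ) ^ r * (4 ^ 4) ^ m * 7 ^ m ≤ 7 ^ r * (7 ^ 3) ^ m * 7 ^ m :=
    Nat.mul_le_mul_right _ h6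
  have h8 : 0 < 7 ^ r * (7 ^ 3) ^ m * 7 ^ m := by positivity
  omega

end Pool.Agent.STK
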