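import Pool.Agent.STK.Key
import Pool.Agent.STK.Count

/-!
The lower bound.
-/

namespace Pool.Agent.STK

theorem need_le (c h : ℕ) (hh : 2 ^ (12 * c + 14) ≤ h) : need c (h / 2 ^ (10 * c + 10)) ≤ h := by
  set M := h / 2 ^ (10 * c + 10) with hM
  have hM1 : 2 ^ (10 * c + 10) * M ≤ h := Nat.mul_div_le _ _
  set C := 2 * c + 1 with hC
  have h1 : 2 ^ C + 1 ≤ 2 ^ (C + 1) := by
    rw [pow_succ 2 C]
    have := Nat.one_le_two_pow (n := C)
    omega
  have h2 : C ≤ 2 ^ C := Nat.lt_two_pow_self.le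
  have h3 : need c M ≤ 4 * (8 ^ C * (2 ^ (C + 1) * (2 ^ C * (2 * M)) + 2 ^ C)) := by
    unfold need
    rw [← hC]
    gcongr
  have h4 : 4 * (8 ^ C * (2 ^ (C + 1) * (2 ^ C * (2 * M)) + 2 ^ C)) =
      2 ^ (10 * c + 9) * M + 2 ^ (8 * c + 6) := by
    have e8 : (8 : ℕ) ^ C = 2 ^ (3 * C) := by rw [pow_mul]; norm_num
    have e1 : 4 * (8 ^ C * (2 ^ (C + 1) * (2 ^ C * (2 * M)) + 2 ^ C)) =
        (2 ^ 2 * 2 ^ (3 * C) * 2 ^ (C + 1) * 2 ^ C * 2) * M + 2 ^ 2 * 2 ^ (3 * C) * 2 ^ C := by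
      rw [e8]; ring
    rw [e1, ← pow_add, ← pow_add, ← pow_add, ← pow_succ, ← pow_add]
    congr 2
    · congr 1; omega
    · omega
  have h5 : 2 * (2 ^ (10 * c + 9) * M) ≤ h := by
    calc 2 * (2 ^ (10 * c + 9) * M) = 2 ^ (10 * c + 10) * M := by
          rw [pow_succ 2 (10 * c + 9)]; ring
      _ ≤ h := hM1
  have h6 : 2 * 2 ^ (8 * c + 6) ≤ h := by
    refine le_trans ?_ hh
    rw [← pow_succ']
    exact Nat.pow_le_pow_right (by norm_num) (by omega)
  rw [h4] at h3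
  omega

/-- The good words. -/
noncomputable def goodWords (F : Type) [Field F] [Fintype F] (h : ℕ) :
    Finset (Option (Lf h) → F) := by
  classical
  exact Finset.univ.filter (fun y => EvalLang F h y ∧ Good h (fun l => y (some l)))

theorem card_goodWords (F : Type) [Field F] [Fintype F] (h : ℕ)
    (hq : 16 ^ h ≤ Fintype.card F) :
    (1 - (Fintype.card F : ℝ) ^ (-(1 / 4) : ℝ)) * (Fintype.card F : ℝ) ^ (2 ^ h) ≤
      ((goodWords F h).card : ℝ) := by
  classical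
  have h1 := count_good F h
  have hq0 : (0 : ℝ) < Fintype.card F := by
    have : 0 < Fintype.card F := Fintype.card_pos
    exact_mod_cast this
  -- the good inputs inject into the good words
  have h2 : Fintype.card F ^ (2 ^ h) ≤
      Nat.card {x : Lf h → F // ¬ Good h x} + (goodWords F h).card := by
    have e1 : Fintype.card (Lf h → F) = Fintype.card F ^ (2 ^ h) := by
      rw [Fintype.card_fun, card_Lf]
    have e2 : Nat.card {x : Lf h → F // ¬ Good h x} =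
        (Finset.univ.filter (fun x : Lf h → F => ¬ Good h x)).card := by
      rw [Nat.card_eq_fintype_card, Fintype.card_subtype]
    have e3 : (Finset.univ.filter (fun x : Lf h → F => Good h x)).card ≤
        (goodWords F h).card := by
      apply Finset.card_le_card_of_injOn
        (fun x => fun o : Option (Lf h) => match o with
          | none => tval h x
          | some l => x l)
      · intro x hx
        have hx' : Good h x := by simpa using hx
        simp only [goodWords, Finset.coe_filter, Finset.mem_univ, true_and, Set.mem_ofPred_eq]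
        exact ⟨rfl, hx'⟩
      · intro x _ y _ hxy
        funext l
        exact congrFun hxy (some l)
    have e4 := Finset.card_filter_add_card_filter_not (s := (Finset.univ : Finset (Lf h → F)))
      (fun x => Good h x)
    rw [Finset.card_univ, e1] at e4
    omega
  have hN : (2 : ℝ) ^ h ≤ (Fintype.card F : ℝ) ^ (1 / 4 : ℝ) := by
    have h3 : ((2 : ℝ) ^ h) ^ (4 : ℕ) ≤ Fintype.card F := by
      have : ((2 : ℕ) ^ h) ^ 4 ≤ Fintype.card F := by
        rw [← pow_mul, mul_comm, pow_mul]; exact hq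
      exact_mod_cast this
    calc (2 : ℝ) ^ h = (((2 : ℝ) ^ h) ^ (4 : ℕ)) ^ (1 / 4 : ℝ) := by
          rw [← Real.rpow_natCast ((2 : ℝ) ^ h) 4, ← Real.rpow_mul (by positivity)]
          norm_num
      _ ≤ _ := Real.rpow_le_rpow (by positivity) h3 (by norm_num)
  have h3 : ((h + 1 : ℕ) : ℝ) * 4 ^ h ≤ (Fintype.card F : ℝ) ^ (3 / 4 : ℝ) := by
    have a1 : ((h + 1 : ℕ) : ℝ) ≤ 2 ^ h := by
      have : h + 1 ≤ 2 ^ h := Nat.lt_two_pow_self
      exact_mod_cast this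
    have a2 : (4 : ℝ) ^ h = 2 ^ h * 2 ^ h := by
      rw [← mul_pow]; norm_num
    calc ((h + 1 : ℕ) : ℝ) * 4 ^ h ≤ 2 ^ h * (2 ^ h * 2 ^ h) := by
          rw [a2]; gcongr
      _ ≤ (Fintype.card F : ℝ) ^ (1 / 4 : ℝ) * ((Fintype.card F : ℝ) ^ (1 / 4 : ℝ) *
            (Fintype.card F : ℝ) ^ (1 / 4 : ℝ)) := by gcongr
      _ = (Fintype.card F : ℝ) ^ (3 / 4 : ℝ) := by
          rw [← Real.rpow_add hq0, ← Real.rpow_add hq0]; norm_num
  have h4 : (Nat.card {x : Lf h → F // ¬ Good h x} : ℝ) ≤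
      (Fintype.card F : ℝ) ^ (-(1 / 4) : ℝ) * (Fintype.card F : ℝ) ^ (2 ^ h) := by
    have h5 : (Nat.card {x : Lf h → F // ¬ Good h x} : ℝ) * Fintype.card F ≤
        (h + 1 : ℕ) * 4 ^ h * (Fintype.card F : ℝ) ^ (2 ^ h) := by exact_mod_cast h1
    have h6 : (Nat.card {x : Lf h → F // ¬ Good h x} : ℝ) * Fintype.card F ≤
        ((Fintype.card F : ℝ) ^ (-(1 / 4) : ℝ) * (Fintype.card F : ℝ) ^ (2 ^ h)) *
          Fintype.card F := by
      calc _ ≤ _ := h5
        _ ≤ (Fintype.card F : ℝ) ^ (3 / 4 : ℝ) * (Fintype.card F : ℝ) ^ (2 ^ h) := by gcongr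
        _ = ((Fintype.card F : ℝ) ^ (-(1 / 4) : ℝ) * (Fintype.card F : ℝ) ^ (2 ^ h)) *
          Fintype.card F := by
            have : (Fintype.card F : ℝ) ^ (3 / 4 : ℝ) =
                (Fintype.card F : ℝ) ^ (-(1 / 4) : ℝ) * Fintype.card F := by
              rw [← Real.rpow_add_one hq0.ne']; norm_num
            rw [this]; ring
    exact le_of_mul_le_mul_right h6 hq0
  have h7 : (Fintype.card F : ℝ) ^ (2 ^ h) ≤
      (Nat.card {x : Lf h → F // ¬ Good h x} : ℝ) + (goodWords F h).card := by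
    exact_mod_cast h2
  rw [sub_mul, one_mul]
  linarith

/-- **The lower bound.** -/
theorem lower (F : Type) [Field F] [Fintype F] (h : ℕ) (hq : 16 ^ h ≤ Fintype.card F) (c : ℕ)
    (hh : 2 ^ (12 * c + 14) ≤ h) (V : Type) [Fintype V] (P : SBP V Empty (Option (Lf h)) F)
    (hV : (Fintype.card V : ℝ) ≤ (Fintype.card F : ℝ) ^ ((h : ℝ) / 2 ^ (12 * c + 14)))
    (hs : ∀ y l, P.AccWalk y l → EvalLang F h y) (S : Finset (Option (Lf h) → F))
    (hSA : S ⊆ goodWords F h) (hS : ∀ y ∈ S, ∃ l, P.AccWalk y l ∧ l.length ≤ c * 2 ^ h) :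
    (S.card : ℝ) ≤ (Fintype.card F : ℝ) ^ (-((h : ℝ) / 2 ^ (12 * c + 14))) *
      (goodWords F h).card := by
  classical
  set M := h / 2 ^ (10 * c + 10) with hM
  have h1 := accepted_card P hs c M (need_le c h hh) S
    (by
      intro y hy
      have := hSA hy
      simp only [goodWords, Finset.mem_filter] at this
      exact this.2.2) hS
  set q : ℝ := (Fintype.card F : ℝ) with hqdef
  have hq16 : (16 : ℝ) ^ h ≤ q := by
    have := (Nat.cast_le (α := ℝ)).mpr hq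
    push_cast at this
    exact this
  have hh14 : 2 ^ 14 ≤ h := le_trans (Nat.pow_le_pow_right (by norm_num) (by omega)) hh
  have hq1 : (1 : ℝ) < q := by
    refine lt_of_lt_of_le ?_ hq16
    exact one_lt_pow₀ (by norm_num) (by omega)
  have hq0 : (0 : ℝ) < q := by linarith
  set E : ℝ := (h : ℝ) / 2 ^ (12 * c + 14) with hE
  have hE0 : 0 ≤ E := by positivity
  -- bounds for the single factors
  have hN : (2 : ℝ) ^ h ≤ q ^ (1 / 4 : ℝ) := by
    have h3 : ((2 : ℝ) ^ h) ^ (4 : ℕ) ≤ q := by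
      rw [← pow_mul, mul_comm, pow_mul]
      norm_num
      exact hq16
    calc (2 : ℝ) ^ h = (((2 : ℝ) ^ h) ^ (4 : ℕ)) ^ (1 / 4 : ℝ) := by
          rw [← Real.rpow_natCast ((2 : ℝ) ^ h) 4, ← Real.rpow_mul (by positivity)]
          norm_num
      _ ≤ _ := Real.rpow_le_rpow (by positivity) h3 (by norm_num)
  have h2M : 2 * M ≤ 2 ^ h := by
    have a1 : M ≤ h / 2 := by
      rw [hM]
      apply Nat.div_le_div_left _ (by norm_num)
      calc 2 = 2 ^ 1 := by norm_num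
        _ ≤ _ := Nat.pow_le_pow_right (by norm_num) (by omega)
    have a2 : h ≤ 2 ^ h := Nat.lt_two_pow_self.le
    omega
  have hR : (3 : ℝ) ^ (4 * c + 2) ≤ q := by
    have a1 : 4 * c + 2 ≤ h := by
      have : 12 * c + 14 < 2 ^ (12 * c + 14) := Nat.lt_two_pow_self
      omega
    calc (3 : ℝ) ^ (4 * c + 2) ≤ 3 ^ h := pow_le_pow_right₀ (by norm_num) a1
      _ ≤ 16 ^ h := pow_le_pow_left₀ (by norm_num) (by norm_num) _
      _ ≤ q := hq16
  have hqE : 1 ≤ q ^ E := Real.one_le_rpow hq1.le hE0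
  have hV2 : (2 * (Fintype.card V : ℝ) + 1) ^ (4 * c + 2) ≤ q ^ (1 + E * (4 * c + 2)) := by
    calc (2 * (Fintype.card V : ℝ) + 1) ^ (4 * c + 2) ≤ (3 * q ^ E) ^ (4 * c + 2) := by
          gcongr
          linarith
      _ = 3 ^ (4 * c + 2) * (q ^ E) ^ (4 * c + 2) := mul_pow _ _ _
      _ ≤ q * q ^ (E * (4 * c + 2)) := by
          have a1 : (q ^ E) ^ (4 * c + 2) = q ^ (E * (4 * c + 2)) := by
            rw [← Real.rpow_natCast (q ^ E), ← Real.rpow_mul hq0.le]
            push_cast; rfl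
          rw [a1]
          gcongr
      _ = q ^ (1 + E * (4 * c + 2)) := by rw [Real.rpow_add hq0, Real.rpow_one]
  have hN2 : (2 : ℝ) ^ h * ((2 : ℝ) ^ h) ^ (2 * M) ≤ q ^ ((2 * M + 1 : ℝ) / 4) := by
    calc (2 : ℝ) ^ h * ((2 : ℝ) ^ h) ^ (2 * M) = ((2 : ℝ) ^ h) ^ (2 * M + 1) := by
          rw [pow_succ]; ring
      _ ≤ (q ^ (1 / 4 : ℝ)) ^ (2 * M + 1) := by gcongr
      _ = q ^ ((2 * M + 1 : ℝ) / 4) := by
          rw [← Real.rpow_natCast (q ^ (1 / 4 : ℝ)), ← Real.rpow_mul hq0.le]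
          push_cast; congr 1; ring
  have hT : q ^ M * (q * q ^ (2 ^ h - 2 * M)) = q ^ (2 ^ h) * q ^ (1 - M : ℝ) := by
    rw [← Real.rpow_natCast q (2 ^ h), ← Real.rpow_add hq0, ← pow_succ', ← pow_add,
      ← Real.rpow_natCast]
    congr 1
    have : M + (2 ^ h - 2 * M + 1) + M = 2 ^ h + 1 := by omega
    have a2 : ((M + (2 ^ h - 2 * M + 1) + M : ℕ) : ℝ) = ((2 ^ h + 1 : ℕ) : ℝ) := by rw [this]
    push_cast [Nat.cast_sub h2M] at a2 ⊢
    linarith
  have hmain : (S.card : ℝ) ≤ q ^ (2 ^ h) *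
      q ^ ((1 - M : ℝ) + ((2 * M + 1 : ℝ) / 4 + (1 + E * (4 * c + 2)))) := by
    have a1 : (S.card : ℝ) ≤ q ^ M * (q * q ^ (2 ^ h - 2 * M)) *
        ((2 : ℝ) ^ h * (((2 : ℝ) ^ h) ^ (2 * M) * (2 * (Fintype.card V : ℝ) + 1) ^ (4 * c + 2))) := by
      have := (Nat.cast_le (α := ℝ)).mpr h1
      push_cast at this
      exact this
    calc (S.card : ℝ) ≤ _ := a1
      _ = (q ^ (2 ^ h) * q ^ (1 - M : ℝ)) * (((2 : ℝ) ^ h * ((2 : ℝ) ^ h) ^ (2 * M)) *
          (2 * (Fintype.card V : ℝ) + 1) ^ (4 * c + 2)) := by rw [hT]; ring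
      _ ≤ (q ^ (2 ^ h) * q ^ (1 - M : ℝ)) * (q ^ ((2 * M + 1 : ℝ) / 4) *
          q ^ (1 + E * (4 * c + 2))) := by gcongr
      _ = _ := by
          rw [Real.rpow_add hq0 (1 - M : ℝ), Real.rpow_add hq0 ((2 * M + 1 : ℝ) / 4)]; ring
  -- the exponent
  have hexp : (1 - M : ℝ) + ((2 * M + 1 : ℝ) / 4 + (1 + E * (4 * c + 2))) ≤ -E + -1 := by
    have b1 : (h : ℝ) / 2 ^ (10 * c + 10) - 1 ≤ M := by
      have : h < 2 ^ (10 * c + 10) * (M + 1) := by
        rw [hM]; exact Nat.lt_mul_div_succ h (by positivity)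
      have b2 : (h : ℝ) < 2 ^ (10 * c + 10) * (M + 1) := by exact_mod_cast this
      rw [sub_le_iff_le_add, div_le_iff₀ (by positivity)]
      linarith
    have b3 : E * (4 * c + 3) ≤ (h : ℝ) / 2 ^ (10 * c + 12) := by
      have c1 : (4 * c + 3 : ℝ) ≤ 2 ^ (c + 2) := by
        have : 4 * c + 3 ≤ 2 ^ (c + 2) := by
          have := Nat.lt_two_pow_self (n := c)
          rw [pow_add]; omega
        exact_mod_cast this
      have c2 : (2 : ℝ) ^ (12 * c + 14) = 2 ^ (c + 2) * 2 ^ (11 * c + 12) := by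
        rw [← pow_add]; congr 1; omega
      have c3 : (2 : ℝ) ^ (10 * c + 12) ≤ 2 ^ (11 * c + 12) :=
        pow_le_pow_right₀ (by norm_num) (by omega)
      calc E * (4 * c + 3) ≤ E * 2 ^ (c + 2) := by gcongr
        _ = (h : ℝ) / 2 ^ (11 * c + 12) := by
            rw [hE, c2]; field_simp
        _ ≤ _ := by gcongr
    have b4 : (4 : ℝ) ≤ (h : ℝ) / 2 ^ (10 * c + 12) := by
      rw [le_div_iff₀ (by positivity)]
      have : 4 * 2 ^ (10 * c + 12) ≤ h := by
        refine le_trans ?_ hh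
        calc 4 * 2 ^ (10 * c + 12) = 2 ^ (10 * c + 14) := by
              rw [pow_add 2 (10 * c) 14, pow_add 2 (10 * c) 12]; ring
          _ ≤ _ := Nat.pow_le_pow_right (by norm_num) (by omega)
      exact_mod_cast this
    have b5 : (h : ℝ) / 2 ^ (10 * c + 10) = 4 * ((h : ℝ) / 2 ^ (10 * c + 12)) := by
      rw [pow_add 2 (10 * c) 12, pow_add 2 (10 * c) 10]
      field_simp
      norm_num
    nlinarith [b1, b3, b4, b5]
  have hA := card_goodWords F h hq
  rw [← hqdef] at hA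
  have hhalf : q ^ (-1 : ℝ) * q ^ (2 ^ h) ≤ ((goodWords F h).card : ℝ) := by
    refine le_trans ?_ hA
    apply mul_le_mul_of_nonneg_right _ (by positivity)
    -- q^(-1) <= 1/2 <= 1 - q^(-1/4)
    have c1 : q ^ (-(1 / 4) : ℝ) ≤ 1 / 2 := by
      have c2 : (2 : ℝ) ≤ q ^ (1 / 4 : ℝ) := by
        refine le_trans ?_ hN
        calc (2 : ℝ) = 2 ^ 1 := by norm_num
          _ ≤ 2 ^ h := pow_le_pow_right₀ (by norm_num) (by omega)
      rw [Real.rpow_neg hq0.le, one_div 2]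
      exact inv_anti₀ (by norm_num) c2
    have c3 : q ^ (-1 : ℝ) ≤ q ^ (-(1 / 4) : ℝ) :=
      Real.rpow_le_rpow_of_exponent_le hq1.le (by norm_num)
    linarith
  calc (S.card : ℝ) ≤ _ := hmain
    _ ≤ q ^ (2 ^ h) * q ^ (-E + -1) := by
        gcongr
        exact hq1.le
    _ = q ^ (-E) * (q ^ (-1 : ℝ) * q ^ (2 ^ h)) := by
        rw [Real.rpow_add hq0]; ring
    _ ≤ q ^ (-E) * (goodWords F h).card := by gcongr

end Pool.Agent.STK
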