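import Pool.Agent.STK.Rect
import Pool.Agent.STK.ColMap

/-! Rectangles of a comb are small. -/

namespace Pool.Agent.STK

variable {F : Type} [Field F]

theorem tr_zero : ∀ (n : ℕ) (l : Lf n) (x : Lf n → F), tr n l 0 x = 0
  | 0, _, _ => rfl
  | (_ + 1), _, _ => rfl

theorem tval_succ {n : ℕ} (x : Lf (n + 1) → F) (b : Bool) :
    tval (n + 1) x = tval n (sub x (!b)) * tval n (sub x b) + 1 := by
  cases b with
  | false => rw [tval, Bool.not_false, mul_comm]
  | true => rw [tval, Bool.not_true]

theorem tr_top : ∀ (n : ℕ) (l : Lf n) (x : Lf n → F), tr n l (n + 1) x = tval n x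
  | 0, _, _ => rfl
  | (n + 1), l, x => by
      rw [tval_succ x l.1, ← tr_top n l.2 (sub x l.1)]
      rfl

theorem Good.tval_ne : ∀ {n : ℕ} {x : Lf n → F}, Good n x → tval n x ≠ 0
  | 0, _, h => h
  | (n + 1), x, h => by
      rw [← tr_top (n + 1) default x]
      exact h.2 default (n + 1)

theorem Good.tr_ne : ∀ {n : ℕ} {x : Lf n → F}, Good n x → ∀ (l : Lf n) (t : ℕ),
    tr n l (t + 1) x ≠ 0
  | 0, _, h => fun _ _ => h
  | (_ + 1), _, h => fun l t => h.2 l t

theorem Good.sub {n : ℕ} {x : Lf (n + 1) → F} (h : Good (n + 1) x) (b : Bool) :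
    Good n (sub x b) := h.1 b

/-- The value of a good tree determines the label of a leaf. -/
theorem leaf_inj : ∀ (n : ℕ) (x x' : Lf n → F) (y : Lf n), Good n x → Good n x' →
    (∀ z, z ≠ y → x z = x' z) → tval n x = tval n x' → x y = x' y := by
  intro n
  induction n with
  | zero => intro x x' y _ _ _ h; exact h
  | succ n ih =>
    rintro x x' ⟨b, y⟩ hG hG' hz hv
    have h1 : STK.sub x (!b) = STK.sub x' (!b) := by
      funext z
      apply hz
      intro e
      have : (!b) = b := congrArg Prod.fst e
      cases b <;> simp at this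
    rw [tval_succ x b, tval_succ x' b, ← h1] at hv
    have h2 : tval n (STK.sub x b) = tval n (STK.sub x' b) := by
      have := add_right_cancel hv
      exact mul_left_cancel₀ (hG.sub (!b)).tval_ne this
    exact ih (STK.sub x b) (STK.sub x' b) y (hG.sub b) (hG'.sub b)
      (fun z hne => hz (b, z) (fun e => hne (congrArg Prod.snd e))) h2

theorem not_mem_colA_other {n : ℕ} (b : Bool) (ys : List (Lf n)) (w : Lf n) :
    ((!b, w) : Lf (n + 1)) ∉ colA (ys.map (fun z => ((b, z) : Lf (n + 1)))) := by
  intro h
  rw [mem_colA_map] at h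
  obtain ⟨y, _, hy⟩ := h
  have : b = !b := congrArg Prod.fst hy
  cases b <;> simp at this

theorem not_mem_colB_other {n : ℕ} (b : Bool) (ys : List (Lf n)) (w : Lf n) :
    ((!b, w) : Lf (n + 1)) ∉ colB (ys.map (fun z => ((b, z) : Lf (n + 1)))) := by
  intro h
  rw [mem_colB_map] at h
  obtain ⟨y, _, hy⟩ := h
  have : b = !b := congrArg Prod.fst hy
  cases b <;> simp at this

theorem mem_colA_same {n : ℕ} (b : Bool) (ys : List (Lf n)) (w : Lf n) :
    ((b, w) : Lf (n + 1)) ∈ colA (ys.map (fun z => ((b, z) : Lf (n + 1)))) ↔ w ∈ colA ys := by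
  rw [mem_colA_map]
  constructor
  · rintro ⟨y, hy, h⟩
    have : y = w := congrArg Prod.snd h
    exact this ▸ hy
  · intro h; exact ⟨w, h, rfl⟩

theorem mem_colB_same {n : ℕ} (b : Bool) (ys : List (Lf n)) (w : Lf n) :
    ((b, w) : Lf (n + 1)) ∈ colB (ys.map (fun z => ((b, z) : Lf (n + 1)))) ↔ w ∈ colB ys := by
  rw [mem_colB_map]
  constructor
  · rintro ⟨y, hy, h⟩
    have : y = w := congrArg Prod.snd h
    exact this ▸ hy
  · intro h; exact ⟨w, h, rfl⟩

/-- The representation of the value of a comb. -/
theorem rep {I : Type} (i0 : I) {n : ℕ} {l : Lf n} {ys : List (Lf n)} (hc : IsComb n l ys) :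
    ∀ (X : I → I → Lf n → F) (_ : ∀ i i' j z, z ∉ colA ys → X i j z = X i' j z)
    (_ : ∀ i j j' z, z ∉ colB ys → X i j z = X i j' z) (_ : ∀ i, Good n (X i i)),
    (∀ M, ys.length = 2 * M → ∃ (κ : F) (t : ℕ) (P R : I → Fin M → F),
      (∀ i, κ = tr n l (t + 1) (X i i)) ∧ (∀ i j, tval n (X i j) = κ + ∑ m, P i m * R j m) ∧
      (∀ i i', P i = P i' → ∀ j, ∀ z ∈ colA ys, X i j z = X i' j z) ∧
      (∀ j j', R j = R j' → ∀ i, ∀ z ∈ colB ys, X i j z = X i j' z)) ∧
    (∀ M, ys.length = 2 * M + 1 → ∃ (c : I → F) (P R : I → Fin M → F),
      (∀ i j, tval n (X i j) = c j + ∑ m, P i m * R j m) ∧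
      (∀ i i', P i = P i' → ∀ j, ∀ z ∈ colA ys, X i j z = X i' j z) ∧
      (∀ j j', c j = c j' → R j = R j' → ∀ i, ∀ z ∈ colB ys, X i j z = X i j' z)) := by
  induction hc with
  | nil n l =>
    intro X hA hB hG
    have hconst : ∀ i j, X i j = X i0 i0 := by
      intro i j
      funext z
      rw [hA i i0 j z (Set.notMem_empty _), hB i0 j i0 z (Set.notMem_empty _)]
    constructor
    · intro M hM
      have hM0 : M = 0 := by simpa using hM
      subst hM0
      refine ⟨tval n (X i0 i0), n, fun _ => Fin.elim0, fun _ => Fin.elim0, ?_, ?_, ?_, ?_⟩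
      · intro i; rw [tr_top, hconst i i]
      · intro i j; rw [hconst i j]; simp
      · intro i i' _ j z hz; exact absurd hz (Set.notMem_empty _)
      · intro j j' _ i z hz; exact absurd hz (Set.notMem_empty _)
    · intro M hM
      simp at hM
  | const n b l ys _ ih =>
    intro X hA hB hG
    obtain ⟨ih1, ih2⟩ := ih (fun i j => STK.sub (X i j) b)
      (fun i i' j z hz => hA i i' j (b, z) (fun h => hz ((mem_colA_same b ys z).mp h)))
      (fun i j j' z hz => hB i j j' (b, z) (fun h => hz ((mem_colB_same b ys z).mp h)))
      (fun i => (hG i).sub b)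
    have hsib : ∀ i j, STK.sub (X i j) (!b) = STK.sub (X i0 i0) (!b) := by
      intro i j
      funext z
      change X i j (!b, z) = X i0 i0 (!b, z)
      rw [hA i i0 j _ (not_mem_colA_other b ys z), hB i0 j i0 _ (not_mem_colB_other b ys z)]
    set s := tval n (STK.sub (X i0 i0) (!b)) with hs
    have hs0 : s ≠ 0 := ((hG i0).sub (!b)).tval_ne
    have hval : ∀ i j, tval (n + 1) (X i j) = s * tval n (STK.sub (X i j) b) + 1 := by
      intro i j
      rw [tval_succ (X i j) b, hsib i j]
    have hPs : ∀ {M : ℕ} (P : I → Fin M → F) (i i' : I), (fun m => s * P i m) =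
        (fun m => s * P i' m) → P i = P i' := by
      intro M P i i' h
      funext m
      exact mul_left_cancel₀ hs0 (congrFun h m)
    constructor
    · intro M hM
      simp only [List.length_map] at hM
      obtain ⟨κ, t, P, R, h1, h2, h3, h4⟩ := ih1 M hM
      refine ⟨s * κ + 1, t + 1, fun i m => s * P i m, R, ?_, ?_, ?_, ?_⟩
      · intro i
        change s * κ + 1 = tval n (STK.sub (X i i) (!b)) * tr n l (t + 1) (STK.sub (X i i) b) + 1
        rw [hsib i i, ← h1 i]
      · intro i j
        rw [hval, h2, mul_add, Finset.mul_sum]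
        simp only [mul_assoc]
        ring
      · intro i i' hP j z hz
        rw [mem_colA_map] at hz
        obtain ⟨y, hy, rfl⟩ := hz
        exact h3 i i' (hPs P i i' hP) j y hy
      · intro j j' hR i z hz
        rw [mem_colB_map] at hz
        obtain ⟨y, hy, rfl⟩ := hz
        exact h4 j j' hR i y hy
    · intro M hM
      simp only [List.length_map] at hM
      obtain ⟨c, P, R, h2, h3, h4⟩ := ih2 M hM
      refine ⟨fun j => s * c j + 1, fun i m => s * P i m, R, ?_, ?_, ?_⟩
      · intro i j
        rw [hval, h2, mul_add, Finset.mul_sum]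
        simp only [mul_assoc]
        ring
      · intro i i' hP j z hz
        rw [mem_colA_map] at hz
        obtain ⟨y, hy, rfl⟩ := hz
        exact h3 i i' (hPs P i i' hP) j y hy
      · intro j j' hcc hR i z hz
        rw [mem_colB_map] at hz
        obtain ⟨y, hy, rfl⟩ := hz
        have : c j = c j' := mul_left_cancel₀ hs0 (add_right_cancel hcc)
        exact h4 j j' this hR i y hy
  | letter n b l y ys _ ih =>
    intro X hA hB hG
    obtain ⟨ih1, ih2⟩ := ih (fun i j => STK.sub (X i j) b)
      (by
        intro i i' j z hz
        apply hA i i' j (b, z)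
        rintro (h | ⟨h, _⟩)
        · exact hz ((mem_colA_same b ys z).mp h)
        · have : b = !b := congrArg Prod.fst h
          cases b <;> simp at this)
      (by
        intro i j j' z hz
        apply hB i j j' (b, z)
        rintro (h | ⟨h, _⟩)
        · exact hz ((mem_colB_same b ys z).mp h)
        · have : b = !b := congrArg Prod.fst h
          cases b <;> simp at this)
      (fun i => (hG i).sub b)
    constructor
    · -- the new letter is an A-letter
      intro M hM
      simp only [List.length_cons, List.length_map] at hM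
      obtain ⟨M', rfl⟩ : ∃ M', M = M' + 1 := ⟨M - 1, by omega⟩
      have hodd : ys.length = 2 * M' + 1 := by omega
      have hmod : ys.length % 2 = 1 := by omega
      obtain ⟨c, P, R, h2, h3, h4⟩ := ih2 M' hodd
      have hsib : ∀ i j, STK.sub (X i j) (!b) = STK.sub (X i i) (!b) := by
        intro i j
        funext w
        apply hB i j i (!b, w)
        rintro (h | ⟨_, h⟩)
        · exact not_mem_colB_other b ys w h
        · simp only [List.length_map] at h; omega
      set z : I → F := fun i => tval n (STK.sub (X i i) (!b)) with hz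
      have hz0 : ∀ i, z i ≠ 0 := fun i => ((hG i).sub (!b)).tval_ne
      refine ⟨1, 0, fun i => Fin.cons (z i) (fun m => z i * P i m),
        fun j => Fin.cons (c j) (R j), ?_, ?_, ?_, ?_⟩
      · intro i
        change (1 : F) = tval n (STK.sub (X i i) (!b)) * tr n l 0 (STK.sub (X i i) b) + 1
        rw [tr_zero, mul_zero, zero_add]
      · intro i j
        rw [tval_succ (X i j) b, hsib i j, h2, Fin.sum_univ_succ]
        simp only [Fin.cons_zero, Fin.cons_succ]
        rw [mul_add, Finset.mul_sum]
        simp only [mul_assoc]
        ring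
      · intro i i' hP j w hw
        have e1 : z i = z i' := by simpa using congrFun hP 0
        have e2 : P i = P i' := by
          funext m
          have := congrFun hP m.succ
          simp only [Fin.cons_succ] at this
          rw [← e1] at this
          exact mul_left_cancel₀ (hz0 i) this
        rcases hw with hw | ⟨rfl, _⟩
        · rw [mem_colA_map] at hw
          obtain ⟨y', hy', rfl⟩ := hw
          exact h3 i i' e2 j y' hy'
        · have hg1 : Good n (STK.sub (X i j) (!b)) := by rw [hsib]; exact (hG i).sub _
          have hg2 : Good n (STK.sub (X i' j) (!b)) := by rw [hsib]; exact (hG i').sub _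
          apply leaf_inj n (STK.sub (X i j) (!b)) (STK.sub (X i' j) (!b)) y hg1 hg2
          · intro w hw
            apply hA i i' j (!b, w)
            rintro (h | ⟨h, _⟩)
            · exact not_mem_colA_other b ys w h
            · exact hw (congrArg Prod.snd h)
          · rw [hsib i j, hsib i' j]; exact e1
      · intro j j' hR i w hw
        have e1 : c j = c j' := by simpa using congrFun hR 0
        have e2 : R j = R j' := by
          funext m
          have := congrFun hR m.succ
          simpa only [Fin.cons_succ] using this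
        rcases hw with hw | ⟨_, hw⟩
        · rw [mem_colB_map] at hw
          obtain ⟨y', hy', rfl⟩ := hw
          exact h4 j j' e1 e2 i y' hy'
        · simp only [List.length_map] at hw; omega
    · -- the new letter is a B-letter
      intro M hM
      simp only [List.length_cons, List.length_map] at hM
      have heven : ys.length = 2 * M := by omega
      obtain ⟨κ, t, P, R, h1, h2, h3, h4⟩ := ih1 M heven
      have hκ : κ ≠ 0 := by
        rw [h1 i0]
        exact ((hG i0).sub b).tr_ne l t
      have hsib : ∀ i j, STK.sub (X i j) (!b) = STK.sub (X j j) (!b) := by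
        intro i j
        funext w
        apply hA i j j (!b, w)
        rintro (h | ⟨_, h⟩)
        · exact not_mem_colA_other b ys w h
        · simp only [List.length_map] at h; omega
      set z : I → F := fun j => tval n (STK.sub (X j j) (!b)) with hz
      have hz0 : ∀ i, z i ≠ 0 := fun i => ((hG i).sub (!b)).tval_ne
      refine ⟨fun j => z j * κ + 1, P, fun j m => z j * R j m, ?_, ?_, ?_⟩
      · intro i j
        rw [tval_succ (X i j) b, hsib i j, h2]
        have : ∑ m, P i m * (z j * R j m) = z j * ∑ m, P i m * R j m := by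
          rw [Finset.mul_sum]
          apply Finset.sum_congr rfl
          intro m _
          ring
        rw [this]
        ring
      · intro i i' hP j w hw
        rcases hw with hw | ⟨_, hw⟩
        · rw [mem_colA_map] at hw
          obtain ⟨y', hy', rfl⟩ := hw
          exact h3 i i' hP j y' hy'
        · simp only [List.length_map] at hw; omega
      · intro j j' hcc hR i w hw
        have e1 : z j = z j' := mul_right_cancel₀ hκ (add_right_cancel hcc)
        have e2 : R j = R j' := by
          funext m
          have := congrFun hR m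
          simp only at this
          rw [← e1] at this
          exact mul_left_cancel₀ (hz0 j) this
        rcases hw with hw | ⟨rfl, _⟩
        · rw [mem_colB_map] at hw
          obtain ⟨y', hy', rfl⟩ := hw
          exact h4 j j' e2 i y' hy'
        · have hg1 : Good n (STK.sub (X i j) (!b)) := by rw [hsib]; exact (hG j).sub _
          have hg2 : Good n (STK.sub (X i j') (!b)) := by rw [hsib]; exact (hG j').sub _
          apply leaf_inj n (STK.sub (X i j) (!b)) (STK.sub (X i j') (!b)) y hg1 hg2
          · intro w hw
            apply hB i j j' (!b, w)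
            rintro (h | ⟨h, _⟩)
            · exact not_mem_colB_other b ys w h
            · exact hw (congrArg Prod.snd h)
          · rw [hsib i j, hsib i j']; exact e1

theorem comb_card {F : Type} [Field F] [Fintype F] {h M : ℕ} {l : Lf h} {ys : List (Lf h)}
    (hc : IsComb h l ys) (hlen : ys.length = 2 * M) {I : Type} [Finite I]
    (X : I → I → Lf h → F)
    (hA : ∀ i i' j z, z ∉ colA ys → X i j z = X i' j z)
    (hB : ∀ i j j' z, z ∉ colB ys → X i j z = X i j' z)
    (hG : ∀ i, Good h (X i i)) (κ : F) (hval : ∀ i j, tval h (X i j) = κ)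
    (hinj : ∀ i j, X i i = X j j → i = j) :
    Nat.card I ≤ Fintype.card F ^ M := by
  rcases isEmpty_or_nonempty I with hI | ⟨⟨i0⟩⟩
  · rw [Nat.card_of_isEmpty]
    exact Nat.zero_le _
  · obtain ⟨κ0, t, P, R, _, h2, h3, h4⟩ := (rep i0 hc X hA hB hG).1 M hlen
    apply rect_bound M P R (κ - κ0)
    · intro i j
      rw [← hval i j, h2]
      ring
    · intro i j hP hR
      apply hinj
      funext z
      have e1 : X i i z = X j i z := by
        by_cases hz : z ∈ colA ys
        · exact h3 i j hP i z hz
        · exact hA i j i z hz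
      have e2 : X j i z = X j j z := by
        by_cases hz : z ∈ colB ys
        · exact h4 i j hR j z hz
        · exact hB j i j z hz
      rw [e1, e2]

end Pool.Agent.STK
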