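import Pool.Agent.STK.Mix
import Pool.Agent.STK.CombThm
import Pool.Agent.STK.Rep

/-!
Counting accepted words.
-/

namespace Pool.Agent.STK

variable {F : Type} [Field F] [Fintype F] {V : Type}

theorem mem_of_colA {α : Type} : ∀ {ys : List α} {y : α}, y ∈ colA ys → y ∈ ys := by
  intro ys
  induction ys with
  | nil => intro y hy; exact absurd hy (Set.notMem_empty _)
  | cons z ys ih =>
    intro y hy
    rcases hy with hy | ⟨rfl, _⟩
    · exact List.mem_cons_of_mem _ (ih hy)
    · exact List.mem_cons_self

theorem mem_colA_or_colB {α : Type} : ∀ {ys : List α} {y : α}, y ∈ ys →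
    y ∈ colA ys ∨ y ∈ colB ys := by
  intro ys
  induction ys with
  | nil => intro y hy; exact absurd hy List.not_mem_nil
  | cons z ys ih =>
    intro y hy
    rw [List.mem_cons] at hy
    rcases hy with rfl | hy
    · rcases Nat.mod_two_eq_zero_or_one ys.length with h | h
      · exact Or.inr (Or.inr ⟨rfl, h⟩)
      · exact Or.inl (Or.inr ⟨rfl, h⟩)
    · rcases ih hy with h | h
      · exact Or.inl (Or.inl h)
      · exact Or.inr (Or.inl h)

theorem IsComb.nodup {n : ℕ} {l : Lf n} {ys : List (Lf n)} (h : IsComb n l ys) : ys.Nodup := by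
  induction h with
  | nil => exact List.nodup_nil
  | const n b l ys _ ih => exact ih.map (fun x y e => congrArg Prod.snd e)
  | letter n b l y ys _ ih =>
    rw [List.nodup_cons]
    refine ⟨?_, ih.map (fun x y e => congrArg Prod.snd e)⟩
    intro hm
    rw [List.mem_map] at hm
    obtain ⟨z, _, hz⟩ := hm
    have : b = !b := congrArg Prod.fst hz
    cases b <;> simp at this

/-- One class is small. -/
theorem class_card {h : ℕ} {P : SBP V Empty (Option (Lf h)) F}
    (hs : ∀ y l, P.AccWalk y l → EvalLang F h y) {M : ℕ} {l : Lf h} {ys : List (Lf h)}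
    (hc : IsComb h l ys) (hlen : ys.length = 2 * M) (z : List (Bool × V)) (y0 : F)
    (I : Finset (Option (Lf h) → F))
    (hI : ∀ y ∈ I, Good h (fun l => y (some l)) ∧ y none = y0 ∧
      ∃ L, SegW P y P.src L z P.acc ∧ ∀ s ∈ L, (s.1 = true → ∀ w ∈ colB ys, some w ∉ s.2) ∧
        (s.1 = false → ∀ w ∈ colA ys, some w ∉ s.2))
    (hout : ∀ y ∈ I, ∀ y' ∈ I, ∀ w, w ∉ ys → y (some w) = y' (some w)) :
    I.card ≤ Fintype.card F ^ M := by
  classical
  have hX : ∀ i j : I, ∀ w : Lf h, w ∉ colB ys →
      (if w ∈ colA ys then i.1 (some w) else j.1 (some w)) = i.1 (some w) := by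
    intro i j w hw
    split_ifs with h1
    · rfl
    · apply hout _ j.2 _ i.2
      intro hm
      rcases mem_colA_or_colB hm with h2 | h2
      · exact h1 h2
      · exact hw h2
  have key := comb_card hc hlen (I := I)
    (fun i j w => if w ∈ colA ys then i.1 (some w) else j.1 (some w))
    (by
      intro i i' j w hw
      simp only [if_neg hw])
    (by
      intro i j j' w hw
      rw [hX i j w hw, hX i j' w hw])
    (by
      intro i
      have : (fun w => if w ∈ colA ys then i.1 (some w) else i.1 (some w)) =
          fun w => i.1 (some w) := by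
        funext w; split_ifs <;> rfl
      rw [this]
      exact (hI _ i.2).1) y0
    (by
      intro i j
      obtain ⟨_, hi0, L, hL, hLc⟩ := hI _ i.2
      obtain ⟨_, hj0, L', hL', hLc'⟩ := hI _ j.2
      let y'' : Option (Lf h) → F := fun o => match o with
        | none => y0
        | some w => if w ∈ colA ys then i.1 (some w) else j.1 (some w)
      obtain ⟨l', hl'⟩ := segW_mix (y'' := y'') hL hL'
        (by
          intro s hsL hst o ho
          rcases o with _ | w
          · exact hi0.symm
          · apply hX
            intro hw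
            exact (hLc s hsL).1 hst w hw ho)
        (by
          intro s hsL hst o ho
          rcases o with _ | w
          · exact hj0.symm
          · have hw : w ∉ colA ys := fun hw => (hLc' s hsL).2 hst w hw ho
            simp only [y'', if_neg hw])
      exact hs y'' l' hl')
    (by
      intro i j hij
      apply Subtype.ext
      funext o
      rcases o with _ | w
      · rw [(hI _ i.2).2.1, (hI _ j.2).2.1]
      · have := congrFun hij w
        simpa using this)
  rwa [Nat.card_eq_fintype_card, Fintype.card_coe] at key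

/-- The number of accepted good words. -/
theorem accepted_card [Fintype V] {h : ℕ} (P : SBP V Empty (Option (Lf h)) F)
    (hs : ∀ y l, P.AccWalk y l → EvalLang F h y) (c M : ℕ) (hh : need c M ≤ h)
    (S : Finset (Option (Lf h) → F)) (hG : ∀ y ∈ S, Good h (fun l => y (some l)))
    (hS : ∀ y ∈ S, ∃ l, P.AccWalk y l ∧ l.length ≤ c * 2 ^ h) :
    S.card ≤ Fintype.card F ^ M * (Fintype.card F * Fintype.card F ^ (2 ^ h - 2 * M)) *
      (2 ^ h * ((2 ^ h) ^ (2 * M) * (2 * Fintype.card V + 1) ^ (4 * c + 2))) := by
  classical
  have hex : ∀ y ∈ S, ∃ (l : Lf h) (ys : List (Lf h)) (z : List (Bool × V)),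
      IsComb h l ys ∧ ys.length = 2 * M ∧ z.length ≤ 4 * c + 2 ∧
      ∃ L, SegW P y P.src L z P.acc ∧ ∀ s ∈ L, (s.1 = true → ∀ w ∈ colB ys, some w ∉ s.2) ∧
        (s.1 = false → ∀ w ∈ colA ys, some w ∉ s.2) := by
    intro y hy
    obtain ⟨w, hw, hwl⟩ := hS y hy
    obtain ⟨l, ys, h1, h2, L, h3, h4, h5⟩ := comb_exists c M h hh w hwl
    have hw' : P.Walk y P.src [] P.acc [] (L.map Prod.snd).flatten := by
      rw [h3]; exact hw
    obtain ⟨z, hz, hzs⟩ := segW_exists L _ hw'
    exact ⟨l, ys, z, h1, h2, by omega, L, hzs, h5⟩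
  choose! l ys z h1 h2 h3 h4 using hex
  let key1 : (Option (Lf h) → F) → Lf h × ((Fin (2 * M) → Lf h) ×
      (Fin (4 * c + 2) → Option (Bool × V))) :=
    fun y => (l y, (fun i => (ys y)[(i : ℕ)]?.getD default), fun i => (z y)[(i : ℕ)]?)
  have hfib : ∀ k ∈ S.image key1, (S.filter (fun y => key1 y = k)).card ≤
      Fintype.card F ^ M * (Fintype.card F * Fintype.card F ^ (2 ^ h - 2 * M)) := by
    intro k hk
    rw [Finset.mem_image] at hk
    obtain ⟨y1, hy1, rfl⟩ := hk
    have same : ∀ y ∈ S.filter (fun y => key1 y = key1 y1), y ∈ S ∧ ys y = ys y1 ∧ z y = z y1 := by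
      intro y hy
      rw [Finset.mem_filter] at hy
      obtain ⟨hyS, hk⟩ := hy
      refine ⟨hyS, ?_, ?_⟩
      · apply List.ext_getElem
        · rw [h2 y hyS, h2 y1 hy1]
        · intro i hi hi'
          have hi2 : i < 2 * M := by rw [h2 y hyS] at hi; exact hi
          have e := congrFun (congrArg (fun p => p.2.1) hk) ⟨i, hi2⟩
          simp only [key1] at e
          rw [List.getElem?_eq_getElem hi, List.getElem?_eq_getElem hi'] at e
          simpa using e
      · apply List.ext_getElem?
        intro i
        by_cases hi : i < 4 * c + 2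
        · exact congrFun (congrArg (fun p => p.2.2) hk) ⟨i, hi⟩
        · rw [List.getElem?_eq_none (by have := h3 y hyS; omega),
            List.getElem?_eq_none (by have := h3 y1 hy1; omega)]
    let key2 : (Option (Lf h) → F) → F × ({w : Lf h // w ∉ ys y1} → F) :=
      fun y => (y none, fun w => y (some w.1))
    have hcard2 : Fintype.card (F × ({w : Lf h // w ∉ ys y1} → F)) =
        Fintype.card F * Fintype.card F ^ (2 ^ h - 2 * M) := by
      have e1 : Fintype.card {w : Lf h // w ∉ ys y1} = 2 ^ h - 2 * M := by
        have e2 : Fintype.card {w : Lf h // w ∉ ys y1} =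
            Fintype.card {w : Lf h // ¬ (w ∈ (ys y1).toFinset)} := by
          apply Fintype.card_congr
          exact Equiv.subtypeEquivRight (fun w => by rw [List.mem_toFinset])
        rw [e2, Fintype.card_subtype_compl, Fintype.card_coe, card_Lf,
          List.toFinset_card_of_nodup (h1 y1 hy1).nodup, h2 y1 hy1]
      rw [Fintype.card_prod, Fintype.card_fun, e1]
    have hfib2 : ∀ k ∈ (S.filter (fun y => key1 y = key1 y1)).image key2,
        ((S.filter (fun y => key1 y = key1 y1)).filter (fun y => key2 y = k)).card ≤
          Fintype.card F ^ M := by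
      intro k _
      apply class_card hs (h1 y1 hy1) (h2 y1 hy1) (z y1) k.1
      · intro y hy
        rw [Finset.mem_filter] at hy
        obtain ⟨hyS, hye, hyz⟩ := same y hy.1
        refine ⟨hG y hyS, congrArg Prod.fst hy.2, ?_⟩
        have := h4 y hyS
        rw [hye, hyz] at this
        exact this
      · intro y hy y' hy' w hw
        rw [Finset.mem_filter] at hy hy'
        have e := hy.2.trans hy'.2.symm
        exact congrFun (congrArg Prod.snd e) ⟨w, hw⟩
    calc (S.filter (fun y => key1 y = key1 y1)).card
        ≤ Fintype.card F ^ M * ((S.filter (fun y => key1 y = key1 y1)).image key2).card :=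
          Finset.card_le_mul_card_image _ _ hfib2
      _ ≤ Fintype.card F ^ M * (Fintype.card F * Fintype.card F ^ (2 ^ h - 2 * M)) := by
          apply Nat.mul_le_mul_left
          rw [← hcard2]
          exact Finset.card_le_univ _
  calc S.card ≤ Fintype.card F ^ M * (Fintype.card F * Fintype.card F ^ (2 ^ h - 2 * M)) *
        (S.image key1).card := Finset.card_le_mul_card_image _ _ hfib
    _ ≤ _ := by
        apply Nat.mul_le_mul_left
        refine le_trans (Finset.card_le_univ _) ?_
        rw [Fintype.card_prod, Fintype.card_prod, Fintype.card_fun, Fintype.card_fun,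
          card_Lf, Fintype.card_fin, Fintype.card_fin, Fintype.card_option, Fintype.card_prod,
          Fintype.card_bool]

end Pool.Agent.STK
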