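import Mathlib

/-!
Leaves of the complete binary tree of height `n`, branching levels, subtrees.
-/

namespace Pool.Agent.STK

/-- Leaves of the complete binary tree of height `n`: sequences of `n` bits. -/
def Lf : ℕ → Type
  | 0 => Unit
  | (n + 1) => Bool × Lf n

instance instFintypeLf : (n : ℕ) → Fintype (Lf n)
  | 0 => inferInstanceAs (Fintype Unit)
  | (n + 1) => by
      haveI := instFintypeLf n
      exact inferInstanceAs (Fintype (Bool × Lf n))

instance instDecEqLf : (n : ℕ) → DecidableEq (Lf n)
  | 0 => inferInstanceAs (DecidableEq Unit)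
  | (n + 1) => by
      haveI := instDecEqLf n
      exact inferInstanceAs (DecidableEq (Bool × Lf n))

instance instInhabitedLf : (n : ℕ) → Inhabited (Lf n)
  | 0 => ⟨()⟩
  | (n + 1) => ⟨(false, (instInhabitedLf n).default)⟩

theorem card_Lf : (n : ℕ) → Fintype.card (Lf n) = 2 ^ n
  | 0 => rfl
  | (n + 1) => by
      have h := card_Lf n
      have : Fintype.card (Lf (n + 1)) = Fintype.card (Bool × Lf n) := rfl
      rw [this, Fintype.card_prod, h, Fintype.card_bool, pow_succ, mul_comm]

/-- The level at which two leaves branch (`n` for equal leaves). -/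
def lev : (n : ℕ) → Lf n → Lf n → ℕ
  | 0, _, _ => 0
  | (n + 1), x, y => if x.1 = y.1 then lev n x.2 y.2 + 1 else 0

theorem lev_self : (n : ℕ) → (x : Lf n) → lev n x x = n
  | 0, _ => rfl
  | (n + 1), x => by simp [lev, lev_self n x.2]

theorem lev_comm : (n : ℕ) → (x y : Lf n) → lev n x y = lev n y x
  | 0, _, _ => rfl
  | (n + 1), x, y => by
      simp only [lev]
      rw [lev_comm n x.2 y.2]
      by_cases h : x.1 = y.1
      · rw [if_pos h, if_pos h.symm]
      · rw [if_neg h, if_neg (fun e => h e.symm)]

theorem lev_le : (n : ℕ) → (x y : Lf n) → lev n x y ≤ n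
  | 0, _, _ => le_refl _
  | (n + 1), x, y => by
      simp only [lev]
      split_ifs
      · exact Nat.succ_le_succ (lev_le n x.2 y.2)
      · exact Nat.zero_le _

theorem lev_lt_iff : (n : ℕ) → (x y : Lf n) → (lev n x y < n ↔ x ≠ y)
  | 0, x, y => by
      constructor
      · intro h; exact absurd h (Nat.not_lt_zero _)
      · intro h; exact absurd (Subsingleton.elim (α := Unit) x y) h
  | (n + 1), x, y => by
      simp only [lev]
      have ih := lev_lt_iff n x.2 y.2
      split_ifs with h
      · constructor
        · intro hl he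
          have : lev n x.2 y.2 < n := by omega
          exact (ih.mp this) (congrArg Prod.snd he)
        · intro hne
          have : x.2 ≠ y.2 := fun e => hne (Prod.ext h e)
          have := ih.mpr this
          omega
      · constructor
        · intro _ he
          exact h (congrArg Prod.fst he)
        · intro _; omega

/-- The leaf `z` of the subtree below the node `u` of depth `D`. -/
def app {n : ℕ} : (D : ℕ) → Lf D → Lf n → Lf (n + D)
  | 0, _, z => z
  | (D + 1), u, z => (u.1, app D u.2 z)

theorem lev_app_same {n : ℕ} : (D : ℕ) → (u : Lf D) → (z z' : Lf n) →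
    lev (n + D) (app D u z) (app D u z') = lev n z z' + D
  | 0, _, _, _ => rfl
  | (D + 1), u, z, z' => by
      have := lev_app_same D u.2 z z'
      simp only [app]
      change (if u.1 = u.1 then lev (n + D) (app D u.2 z) (app D u.2 z') + 1 else 0) = _
      rw [if_pos rfl, this]
      omega

theorem lev_app_diff {n : ℕ} : (D : ℕ) → (u u' : Lf D) → u ≠ u' → (z z' : Lf n) →
    lev (n + D) (app D u z) (app D u' z') = lev D u u'
  | 0, u, u', h, _, _ => absurd (Subsingleton.elim (α := Unit) u u') h
  | (D + 1), u, u', h, z, z' => by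
      change (if u.1 = u'.1 then lev (n + D) (app D u.2 z) (app D u'.2 z') + 1 else 0) = 
        (if u.1 = u'.1 then lev D u.2 u'.2 + 1 else 0)
      split_ifs with h1
      · have h2 : u.2 ≠ u'.2 := fun e => h (Prod.ext h1 e)
        rw [lev_app_diff D u.2 u'.2 h2 z z']
      · rfl

theorem app_inj {n : ℕ} (D : ℕ) (u : Lf D) {z z' : Lf n} (h : app D u z = app D u z') :
    z = z' := by
  by_contra hne
  have h1 := lev_app_same D u z z'
  rw [h, lev_self] at h1
  have h2 := (lev_lt_iff n z z').mpr hne
  omega

theorem app_ne {n : ℕ} (D : ℕ) {u u' : Lf D} (hu : u ≠ u') (z z' : Lf n) :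
    app D u z ≠ app D u' z' := by
  intro h
  have h1 := lev_app_diff D u u' hu z z'
  rw [h, lev_self] at h1
  have h2 := (lev_lt_iff D u u').mpr hu
  omega

end Pool.Agent.STK
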