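import Pool.Agent.STK.Defs

/-!
Splitting and mixing walks of programs without a stack.
-/

namespace Pool.Agent.STK

variable {V Γ I A : Type}

theorem SBP.Walk.congr {P : SBP V Γ I A} {y y' : I → A} {u v : V} {σ τ : List Γ} {l : List I}
    (h : P.Walk y u σ v τ l) (hy : ∀ i ∈ l, y' i = y i) : P.Walk y' u σ v τ l := by
  induction h with
  | nil => exact SBP.Walk.nil _ _
  | free h1 _ ih => exact SBP.Walk.free h1 (ih hy)
  | @test u v w σ τ i l h1 _ ih =>
    have hi : y' i = y i := hy _ List.mem_cons_self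
    refine SBP.Walk.test (v := v) ?_ (ih (fun j hj => hy j (List.mem_cons_of_mem _ hj)))
    rw [hi]; exact h1
  | push h1 _ ih => exact SBP.Walk.push h1 (ih hy)
  | pop h1 _ ih => exact SBP.Walk.pop h1 (ih hy)

theorem SBP.Walk.append {P : SBP V Γ I A} {y : I → A} {u v w : V} {σ τ υ : List Γ}
    {l l' : List I} (h : P.Walk y u σ v τ l) (h' : P.Walk y v τ w υ l') :
    P.Walk y u σ w υ (l ++ l') := by
  induction h with
  | nil => exact h'
  | free h1 _ ih => exact SBP.Walk.free h1 (ih h')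
  | test h1 _ ih => exact SBP.Walk.test h1 (ih h')
  | push h1 _ ih => exact SBP.Walk.push h1 (ih h')
  | pop h1 _ ih => exact SBP.Walk.pop h1 (ih h')

theorem SBP.Walk.split {P : SBP V Γ I A} {y : I → A} {u w : V} {σ τ : List Γ} {l : List I}
    (h : P.Walk y u σ w τ l) : ∀ l1 l2, l = l1 ++ l2 →
      ∃ v ρ, P.Walk y u σ v ρ l1 ∧ P.Walk y v ρ w τ l2 := by
  induction h with
  | nil u σ =>
    intro l1 l2 hl
    obtain ⟨rfl, rfl⟩ := List.append_eq_nil_iff.mp hl.symm
    exact ⟨u, σ, SBP.Walk.nil _ _, SBP.Walk.nil _ _⟩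
  | free h1 _ ih =>
    intro l1 l2 hl
    obtain ⟨v, ρ, a, b⟩ := ih l1 l2 hl
    exact ⟨v, ρ, SBP.Walk.free h1 a, b⟩
  | @test u v w σ τ i l h1 h2 ih =>
    intro l1 l2 hl
    rcases l1 with _ | ⟨j, l1⟩
    · rw [List.nil_append] at hl
      rw [← hl]
      exact ⟨u, σ, SBP.Walk.nil _ _, SBP.Walk.test h1 h2⟩
    · rw [List.cons_append, List.cons.injEq] at hl
      obtain ⟨rfl, hl⟩ := hl
      obtain ⟨v', ρ, a, b⟩ := ih l1 l2 hl
      exact ⟨v', ρ, SBP.Walk.test h1 a, b⟩
  | push h1 _ ih =>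
    intro l1 l2 hl
    obtain ⟨v, ρ, a, b⟩ := ih l1 l2 hl
    exact ⟨v, ρ, SBP.Walk.push h1 a, b⟩
  | pop h1 _ ih =>
    intro l1 l2 hl
    obtain ⟨v, ρ, a, b⟩ := ih l1 l2 hl
    exact ⟨v, ρ, SBP.Walk.pop h1 a, b⟩

/-- Walks of a program without a stack cut into blocks: `z` lists colour of the block and node at
the end of the block. -/
inductive SegW (P : SBP V Empty I A) (y : I → A) :
    V → List (Bool × List I) → List (Bool × V) → V → Prop
  | nil (u w : V) (h : P.Walk y u [] w [] []) : SegW P y u [] [] w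
  | cons (u v w : V) (b : Bool) (sg : List I) (L : List (Bool × List I)) (z : List (Bool × V))
      (h : P.Walk y u [] v [] sg) (h' : SegW P y v L z w) :
      SegW P y u ((b, sg) :: L) ((b, v) :: z) w

theorem segW_exists {P : SBP V Empty I A} {y : I → A} {w : V} : ∀ (L : List (Bool × List I))
    (u : V), P.Walk y u [] w [] (L.map Prod.snd).flatten →
      ∃ z : List (Bool × V), z.length = L.length ∧ SegW P y u L z w := by
  intro L
  induction L with
  | nil => intro u h; exact ⟨[], rfl, SegW.nil _ _ h⟩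
  | cons s L ih =>
    intro u h
    obtain ⟨b, sg⟩ := s
    rw [List.map_cons, List.flatten_cons] at h
    obtain ⟨v, ρ, h1, h2⟩ := h.split _ _ rfl
    have hρ : ρ = [] := by
      rcases ρ with _ | ⟨a, _⟩
      · rfl
      · exact a.elim
    subst hρ
    obtain ⟨z, hz, hs⟩ := ih v h2
    exact ⟨(b, v) :: z, by simp [hz], SegW.cons _ _ _ _ _ _ _ h1 hs⟩

theorem segW_mix {P : SBP V Empty I A} {y y' y'' : I → A} {u w : V}
    {L : List (Bool × List I)} {z : List (Bool × V)} (h : SegW P y u L z w) :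
    ∀ {L' : List (Bool × List I)}, SegW P y' u L' z w →
    (∀ s ∈ L, s.1 = true → ∀ i ∈ s.2, y'' i = y i) →
    (∀ s ∈ L', s.1 = false → ∀ i ∈ s.2, y'' i = y' i) → ∃ l, P.Walk y'' u [] w [] l := by
  induction h with
  | nil u w h1 =>
    intro L' _ _ _
    exact ⟨[], h1.congr (fun i hi => absurd hi List.not_mem_nil)⟩
  | cons u v w b sg L z h1 _ ih =>
    intro L' h2 hA hB
    cases h2 with
    | cons _ _ _ _ sg' L' _ h3 h4 =>
      obtain ⟨l, hl⟩ := ih h4 (fun s hs => hA s (List.mem_cons_of_mem _ hs))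
        (fun s hs => hB s (List.mem_cons_of_mem _ hs))
      cases b with
      | true =>
        exact ⟨_, (h1.congr (hA _ List.mem_cons_self rfl)).append hl⟩
      | false =>
        exact ⟨_, (h3.congr (hB _ List.mem_cons_self rfl)).append hl⟩

end Pool.Agent.STK
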