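import Mathlib

/-! Rectangles in a level set of the inner product are small. -/

namespace Pool.Agent.STK

/-- Differences `R j - R j0` are orthogonal to the span of the `P i`:
|P(I)| <= q^d, |R(I)| <= q^(M-d), and I injects into P(I) x R(I). -/
theorem rect_bound {F : Type} [Field F] [Fintype F] (M : ℕ) {I : Type} [Finite I]
    (P R : I → Fin M → F) (κ : F) (h : ∀ i j, ∑ m, P i m * R j m = κ)
    (hinj : ∀ i j, P i = P j → R i = R j → i = j) :
    Nat.card I ≤ Fintype.card F ^ M := by
  classical
  rcases isEmpty_or_nonempty I with hI | ⟨⟨i₀⟩⟩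
  · rw [Nat.card_of_isEmpty]
    exact Nat.zero_le _
  -- the functional of a vector
  obtain ⟨ℓ, hℓ⟩ : ∃ ℓ : (Fin M → F) → Module.Dual F (Fin M → F), ∀ w v, ℓ w v = ∑ m, v m * w m :=
    ⟨fun w =>
      { toFun := fun v => ∑ m, v m * w m
        map_add' := fun v v' => by
          simp only [Pi.add_apply, add_mul, Finset.sum_add_distrib]
        map_smul' := fun c v => by
          simp only [Pi.smul_apply, smul_eq_mul, mul_assoc, Finset.mul_sum, RingHom.id_apply] },
      fun w v => rfl⟩
  have hℓinj : ∀ w w', ℓ w = ℓ w' → w = w' := by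
    intro w w' hw
    funext k
    have h1 : ℓ w (Pi.single k 1) = ℓ w' (Pi.single k 1) := by rw [hw]
    rw [hℓ, hℓ] at h1
    simpa [Pi.single_apply] using h1
  obtain ⟨V, hV⟩ : ∃ V : Submodule F (Fin M → F), V = Submodule.span F (Set.range P) := ⟨_, rfl⟩
  have hPV : ∀ i, P i ∈ V := fun i => by
    rw [hV]
    exact Submodule.subset_span ⟨i, rfl⟩
  have hRW : ∀ i, ℓ (R i - R i₀) ∈ V.dualAnnihilator := fun i => by
    rw [Submodule.mem_dualAnnihilator]
    intro v hv
    rw [hV] at hv
    induction hv using Submodule.span_induction with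
    | mem x hx =>
      obtain ⟨k, rfl⟩ := hx
      rw [hℓ]
      simp only [Pi.sub_apply, mul_sub, Finset.sum_sub_distrib]
      rw [h, h, sub_self]
    | zero => exact map_zero _
    | add x y _ _ hx hy => rw [map_add, hx, hy, add_zero]
    | smul c x _ hx => rw [map_smul, hx, smul_zero]
  have hcard : Nat.card I ≤ Nat.card (V × V.dualAnnihilator) := by
    have : Finite V := inferInstance
    have : Finite (Module.Dual F (Fin M → F)) := Module.finite_of_finite F
    refine Nat.card_le_card_of_injective
      (fun i => ((⟨P i, hPV i⟩ : V), (⟨ℓ (R i - R i₀), hRW i⟩ : V.dualAnnihilator))) ?_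
    intro i j hij
    simp only [Prod.mk.injEq, Subtype.mk.injEq] at hij
    exact hinj i j hij.1 (sub_left_injective (hℓinj _ _ hij.2))
  refine hcard.trans (le_of_eq ?_)
  have : Finite (Module.Dual F (Fin M → F)) := Module.finite_of_finite F
  rw [Nat.card_prod, Module.natCard_eq_pow_finrank (K := F) (V := V),
    Module.natCard_eq_pow_finrank (K := F) (V := V.dualAnnihilator), ← pow_add,
    Subspace.finrank_add_finrank_dualAnnihilator_eq, Module.finrank_fintype_fun_eq_card,
    Fintype.card_fin, Nat.card_eq_fintype_card]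

end Pool.Agent.STK
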