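import Pool.Agent.STK.Emb

/-!
Separators: a maximal set of cut positions such that many leaves occur in every block.
-/

namespace Pool.Agent.STK

/-- The number of the block of the position `p`. -/
def blk (Θ : Finset ℕ) (p : ℕ) : ℕ := (Θ.filter (fun t => t ≤ p)).card

theorem blk_mono (Θ : Finset ℕ) {p q : ℕ} (h : p ≤ q) : blk Θ p ≤ blk Θ q := by
  unfold blk
  apply Finset.card_le_card
  intro t ht
  rw [Finset.mem_filter] at ht ⊢
  exact ⟨ht.1, le_trans ht.2 h⟩

theorem blk_le (Θ : Finset ℕ) (p : ℕ) : blk Θ p ≤ Θ.card :=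
  Finset.card_le_card (Finset.filter_subset _ _)

theorem not_mem_of_blk {Θ : Finset ℕ} {a b φ : ℕ} (h : blk Θ a = blk Θ b) (ha : a < φ)
    (hb : φ ≤ b) : φ ∉ Θ := by
  intro hφ
  have : blk Θ a < blk Θ b := by
    unfold blk
    apply Finset.card_lt_card
    rw [Finset.ssubset_iff_of_subset]
    · refine ⟨φ, Finset.mem_filter.mpr ⟨hφ, hb⟩, ?_⟩
      rw [Finset.mem_filter]
      intro h; omega
    · intro t ht
      rw [Finset.mem_filter] at ht ⊢
      exact ⟨ht.1, by omega⟩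
  omega

theorem blk_insert {Θ : Finset ℕ} {φ : ℕ} (hφ : φ ∉ Θ) (p : ℕ) :
    blk (insert φ Θ) p = blk Θ p + if φ ≤ p then 1 else 0 := by
  unfold blk
  rw [Finset.filter_insert]
  split_ifs with h
  · rw [Finset.card_insert_of_notMem]
    intro hm
    exact hφ (Finset.mem_filter.mp hm).1
  · rfl

/-- `S` meets every block. -/
def Full (Θ S : Finset ℕ) : Prop := ∀ i ≤ Θ.card, ∃ p ∈ S, blk Θ p = i

/-- `S` has elements on both sides of `φ` in one block. -/
def Stab (Θ : Finset ℕ) (φ : ℕ) (S : Finset ℕ) : Prop :=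
  ∃ a ∈ S, ∃ b ∈ S, a < φ ∧ φ ≤ b ∧ blk Θ a = blk Θ b

theorem Full.card {Θ S : Finset ℕ} (h : Full Θ S) : Θ.card + 1 ≤ S.card := by
  have : Finset.range (Θ.card + 1) ⊆ S.image (blk Θ) := by
    intro i hi
    rw [Finset.mem_range] at hi
    obtain ⟨p, hp, rfl⟩ := h i (by omega)
    exact Finset.mem_image_of_mem _ hp
  calc Θ.card + 1 = (Finset.range (Θ.card + 1)).card := (Finset.card_range _).symm
    _ ≤ (S.image (blk Θ)).card := Finset.card_le_card this
    _ ≤ S.card := Finset.card_image_le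

theorem Full.insert {Θ S : Finset ℕ} {φ : ℕ} (h : Full Θ S) (hs : Stab Θ φ S) :
    φ ∉ Θ ∧ Full (insert φ Θ) S := by
  obtain ⟨a, ha, b, hb, h1, h2, h3⟩ := hs
  have hφ : φ ∉ Θ := not_mem_of_blk h3 h1 h2
  refine ⟨hφ, ?_⟩
  intro i hi
  rw [Finset.card_insert_of_notMem hφ] at hi
  rcases lt_trichotomy i (blk Θ a) with hlt | heq | hgt
  · obtain ⟨p, hp, hpi⟩ := h i (le_trans hlt.le (blk_le Θ a))
    refine ⟨p, hp, ?_⟩
    have hpa : p < a := by
      by_contra hc
      have := blk_mono Θ (not_lt.mp hc)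
      omega
    rw [blk_insert hφ, if_neg (by omega), hpi]
    rfl
  · refine ⟨a, ha, ?_⟩
    rw [blk_insert hφ, if_neg (by omega), heq]
    rfl
  · rcases Nat.lt_or_ge i (blk Θ a + 2) with h4 | h4
    · refine ⟨b, hb, ?_⟩
      rw [blk_insert hφ, if_pos h2]
      omega
    · obtain ⟨p, hp, hpi⟩ := h (i - 1) (by omega)
      refine ⟨p, hp, ?_⟩
      have hpb : b < p := by
        by_contra hc
        have := blk_mono Θ (not_lt.mp hc)
        omega
      rw [blk_insert hφ, if_pos (by omega)]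
      omega

/-- **Separators.** -/
theorem exists_sep {n : ℕ} (R : Lf n → Finset ℕ) (C r : ℕ) : ∀ (j : ℕ) (Θ : Finset ℕ)
    (X : Lf n → Prop), (∀ x, X x → Full Θ (R x) ∧ (R x).card ≤ C) → C ≤ Θ.card + 1 + j →
    Emb n X (8 ^ (j + 1) * r) →
    ∃ (Θ' : Finset ℕ) (X' : Lf n → Prop) (r' : ℕ), r ≤ r' ∧
      (∀ x, X' x → Full Θ' (R x) ∧ (R x).card ≤ C) ∧ Emb n X' (8 * r') ∧
      ∀ φ, ¬ Emb n (fun x => X' x ∧ Stab Θ' φ (R x)) r' := by
  intro j
  induction j with
  | zero =>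
    intro Θ X hX hC hE
    refine ⟨Θ, X, r, le_refl _, hX, by simpa using hE, ?_⟩
    intro φ hφ
    obtain ⟨e, _, he⟩ := hφ
    obtain ⟨h1, h2⟩ := he default
    obtain ⟨h3, h4⟩ := (hX _ h1).1.insert h2
    have h5 := h4.card
    rw [Finset.card_insert_of_notMem h3] at h5
    have h6 := (hX _ h1).2
    omega
  | succ j ih =>
    intro Θ X hX hC hE
    by_cases hall : ∀ φ, ¬ Emb n (fun x => X x ∧ Stab Θ φ (R x)) (8 ^ (j + 1) * r)
    · refine ⟨Θ, X, 8 ^ (j + 1) * r, ?_, hX, ?_, hall⟩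
      · exact Nat.le_mul_of_pos_left r (by positivity)
      · rw [← mul_assoc, ← pow_succ']
        exact hE
    · push Not at hall
      obtain ⟨φ, hφ⟩ := hall
      have hφ' : φ ∉ Θ := by
        obtain ⟨e, _, he⟩ := hφ
        exact ((hX _ (he default).1).1.insert (he default).2).1
      refine ih (insert φ Θ) (fun x => X x ∧ Stab Θ φ (R x)) ?_ ?_ hφ
      · intro x hx
        exact ⟨((hX x hx.1).1.insert hx.2).2, (hX x hx.1).2⟩
      · rw [Finset.card_insert_of_notMem hφ']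
        omega

end Pool.Agent.STK
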