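import Pool.Agent.STK.Defs

/-! A deterministic program with a stack evaluates the tree and reads every symbol once. -/

namespace Pool.Agent.STK

/-- Instructions of straight line programs with a register and a stack. -/
inductive Ins (I : Type) : Type
  | read : I → Ins I
  | push : Ins I
  | comb : Ins I
  | check : I → Ins I

namespace Upper

variable {I F : Type} [Field F]

/-- The variables tested by a straight line program. -/
def rd : List (Ins I) → List I
  | [] => []
  | Ins.read i :: c => i :: rd c
  | Ins.push :: c => rd c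
  | Ins.comb :: c => rd c
  | Ins.check i :: c => i :: rd c

/-- Execution of a straight line program. -/
def exec [DecidableEq F] (y : I → F) : List (Ins I) → F → List F → Option (F × List F)
  | [], r, σ => some (r, σ)
  | Ins.read i :: c, _, σ => exec y c (y i) σ
  | Ins.push :: c, r, σ => exec y c 0 (r :: σ)
  | Ins.comb :: c, r, a :: σ => exec y c (a * r + 1) σ
  | Ins.comb :: _, _, [] => none
  | Ins.check i :: c, r, σ => if y i = r then exec y c 0 σ else none

/-- The branching program with a stack of a straight line program. -/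
def prog (F : Type) [Field F] (code : List (Ins I)) : SBP (Fin (code.length + 1) × F) F I F where
  src := (0, 0)
  acc := (Fin.last _, 0)
  free := fun _ _ => False
  test := fun u i a v => v.1.val = u.1.val + 1 ∧
    ((code[u.1.val]? = some (Ins.read i) ∧ v.2 = a) ∨
      (code[u.1.val]? = some (Ins.check i) ∧ a = u.2 ∧ v.2 = 0))
  push := fun u a v => v.1.val = u.1.val + 1 ∧ code[u.1.val]? = some Ins.push ∧ a = u.2 ∧ v.2 = 0
  pop := fun u a v => v.1.val = u.1.val + 1 ∧ code[u.1.val]? = some Ins.comb ∧ v.2 = a * u.2 + 1

theorem drop_of_get {code : List (Ins I)} {k : ℕ} {x : Ins I} (h : code[k]? = some x) :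
    code.drop k = x :: code.drop (k + 1) := by
  obtain ⟨hk, hx⟩ := List.getElem?_eq_some_iff.mp h
  rw [List.drop_eq_getElem_cons hk, hx]

theorem prog_det (code : List (Ins I)) : (prog F code).Det := by
  intro y c d e h1 h2
  obtain ⟨⟨k, r⟩, σ⟩ := c
  obtain ⟨⟨kd, rd'⟩, τ⟩ := d
  obtain ⟨⟨ke, re⟩, ρ⟩ := e
  simp only [SBP.Next, prog, false_and, false_or] at h1 h2
  rcases h1 with ⟨i, ⟨hk, h⟩, rfl⟩ | ⟨a, ⟨hk, h, ha, hr⟩, hs⟩ | ⟨a, ⟨hk, h, hr⟩, hs⟩ <;>
  rcases h2 with ⟨j, ⟨gk, g⟩, gs⟩ | ⟨b, ⟨gk, g, hb, gr⟩, gs⟩ | ⟨b, ⟨gk, g, gr⟩, gs⟩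
  · have hke : kd = ke := Fin.ext (by omega)
    rcases h with ⟨h, hr⟩ | ⟨h, hr1, hr⟩ <;> rcases g with ⟨g, gr⟩ | ⟨g, gr1, gr⟩ <;>
      rw [h] at g <;> simp at g <;> subst g <;> simp_all
  · rcases h with ⟨h, hr⟩ | ⟨h, hr1, hr⟩ <;> rw [h] at g <;> simp at g
  · rcases h with ⟨h, hr⟩ | ⟨h, hr1, hr⟩ <;> rw [h] at g <;> simp at g
  · rcases g with ⟨g, gr⟩ | ⟨g, gr1, gr⟩ <;> rw [h] at g <;> simp at g
  · have hke : kd = ke := Fin.ext (by omega)
    simp_all
  · rw [h] at g; simp at g
  · rcases g with ⟨g, gr⟩ | ⟨g, gr1, gr⟩ <;> rw [h] at g <;> simp at g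
  · rw [h] at g; simp at g
  · have hke : kd = ke := Fin.ext (by omega)
    simp_all

theorem walk_exec [DecidableEq F] {code : List (Ins I)} {y : I → F}
    {u v : Fin (code.length + 1) × F} {σ τ : List F} {l : List I}
    (h : (prog F code).Walk y u σ v τ l) (hv : v.1 = Fin.last _) :
    exec y (code.drop u.1.val) u.2 σ = some (v.2, τ) := by
  induction h with
  | nil u σ => rw [hv]; simp [exec]
  | free h _ _ => exact absurd h (by simp [prog])
  | @test u v w σ τ i l h _ ih =>
      obtain ⟨hk, h⟩ := h
      have ih := ih hv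
      rw [hk] at ih
      rcases h with ⟨h, hr⟩ | ⟨h, hr1, hr⟩
      · rw [drop_of_get h]
        simp only [exec]
        rw [← hr]; exact ih
      · rw [drop_of_get h]
        simp only [exec]
        rw [if_pos hr1, ← hr]; exact ih
  | @push u v w a σ τ l h _ ih =>
      obtain ⟨hk, h, ha, hr⟩ := h
      have ih := ih hv
      rw [hk] at ih
      rw [drop_of_get h]
      simp only [exec]
      rw [← hr, ← ha]; exact ih
  | @pop u v w a σ τ l h _ ih =>
      obtain ⟨hk, h, hr⟩ := h
      have ih := ih hv
      rw [hk] at ih
      rw [drop_of_get h]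
      simp only [exec]
      rw [← hr]; exact ih

theorem exec_walk [DecidableEq F] (code : List (Ins I)) (y : I → F) (m : ℕ) :
    ∀ (k : ℕ) (hk : k + m = code.length) (r : F) (σ : List F) (r' : F) (τ : List F),
      exec y (code.drop k) r σ = some (r', τ) →
      ∃ l, (prog F code).Walk y (⟨k, by omega⟩, r) σ (Fin.last _, r') τ l := by
  induction m with
  | zero =>
      intro k hk r σ r' τ h
      have hk' : k = code.length := by omega
      subst hk'
      simp [exec] at h
      obtain ⟨rfl, rfl⟩ := h
      exact ⟨[], SBP.Walk.nil _ _⟩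
  | succ m ih =>
      intro k hk r σ r' τ h
      have hlt : k < code.length := by omega
      have hg : code[k]? = some code[k] := List.getElem?_eq_getElem hlt
      have hd := drop_of_get hg
      rw [hd] at h
      rcases hx : code[k] with i | _ | _ | i
      · rw [hx] at h hg
        simp only [exec] at h
        obtain ⟨l, hl⟩ := ih (k + 1) (by omega) _ _ _ _ h
        exact ⟨i :: l, SBP.Walk.test ⟨rfl, Or.inl ⟨hg, rfl⟩⟩ hl⟩
      · rw [hx] at h hg
        simp only [exec] at h
        obtain ⟨l, hl⟩ := ih (k + 1) (by omega) _ _ _ _ h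
        exact ⟨l, SBP.Walk.push (a := r) ⟨rfl, hg, rfl, rfl⟩ hl⟩
      · rw [hx] at h hg
        cases σ with
        | nil => simp [exec] at h
        | cons a σ =>
            simp only [exec] at h
            obtain ⟨l, hl⟩ := ih (k + 1) (by omega) _ _ _ _ h
            exact ⟨l, SBP.Walk.pop (a := a) ⟨rfl, hg, rfl⟩ hl⟩
      · rw [hx] at h hg
        simp only [exec] at h
        split_ifs at h with hy
        obtain ⟨l, hl⟩ := ih (k + 1) (by omega) _ _ _ _ h
        exact ⟨i :: l, SBP.Walk.test ⟨rfl, Or.inr ⟨hg, hy, rfl⟩⟩ hl⟩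

theorem walk_rd {code : List (Ins I)} {y : I → F}
    {u v : Fin (code.length + 1) × F} {σ τ : List F} {l : List I}
    (h : (prog F code).Walk y u σ v τ l) :
    rd (code.drop u.1.val) = l ++ rd (code.drop v.1.val) := by
  induction h with
  | nil u σ => rfl
  | free h _ _ => exact absurd h (by simp [prog])
  | @test u v w σ τ i l h _ ih =>
      obtain ⟨hk, h⟩ := h
      rw [hk] at ih
      rcases h with ⟨h, hr⟩ | ⟨h, hr1, hr⟩
      · rw [drop_of_get h]
        simp only [rd, List.cons_append, ih]
      · rw [drop_of_get h]
        simp only [rd, List.cons_append, ih]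
  | @push u v w a σ τ l h _ ih =>
      obtain ⟨hk, h, ha, hr⟩ := h
      rw [hk] at ih
      rw [drop_of_get h]
      simp only [rd, ih]
  | @pop u v w a σ τ l h _ ih =>
      obtain ⟨hk, h, hr⟩ := h
      rw [hk] at ih
      rw [drop_of_get h]
      simp only [rd, ih]

theorem rd_append (c d : List (Ins I)) : rd (c ++ d) = rd c ++ rd d := by
  induction c with
  | nil => rfl
  | cons x c ih =>
      rcases x with i | _ | _ | i <;> simp [rd, ih]

/-- Depth first evaluation. -/
def code : (n : ℕ) → (Lf n → I) → List (Ins I)
  | 0, e => [Ins.read (e ())]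
  | (n + 1), e => code n (fun l => e (false, l)) ++ Ins.push ::
      (code n (fun l => e (true, l)) ++ [Ins.comb])

theorem code_length (n : ℕ) : ∀ e : Lf n → I, (code n e).length + 2 = 3 * 2 ^ n := by
  induction n with
  | zero => intro e; simp [code]
  | succ n ih =>
      intro e
      have h1 := ih (fun l => e (false, l))
      have h2 := ih (fun l => e (true, l))
      simp only [code, List.length_append, List.length_cons, List.length_nil]
      rw [pow_succ]
      omega

theorem exec_code [DecidableEq F] (y : I → F) (n : ℕ) :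
    ∀ (e : Lf n → I) (c : List (Ins I)) (r : F) (σ : List F),
      exec y (code n e ++ c) r σ = exec y c (tval n (fun l => y (e l))) σ := by
  induction n with
  | zero => intro e c r σ; simp [code, exec, tval]
  | succ n ih =>
      intro e c r σ
      simp only [code, List.append_assoc, List.cons_append]
      rw [ih]
      simp only [exec]
      rw [ih]
      simp only [List.nil_append, exec, tval]
      rfl

theorem rd_code (n : ℕ) : ∀ (e : Lf n → I), Function.Injective e →
    (rd (code n e)).Nodup ∧ ∀ i ∈ rd (code n e), ∃ l, e l = i := by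
  induction n with
  | zero =>
      intro e _
      simp only [code, rd]
      exact ⟨List.nodup_singleton _, by
        intro i hi
        rw [List.mem_singleton] at hi
        exact ⟨(), hi.symm⟩⟩
  | succ n ih =>
      intro e he
      have i1 : Function.Injective (fun l : Lf n => e (false, l)) := fun a b h =>
        congrArg Prod.snd (he h)
      have i2 : Function.Injective (fun l : Lf n => e (true, l)) := fun a b h =>
        congrArg Prod.snd (he h)
      obtain ⟨n1, m1⟩ := ih _ i1
      obtain ⟨n2, m2⟩ := ih _ i2
      simp only [code, rd_append, rd, List.append_nil]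
      refine ⟨List.nodup_append.mpr ⟨n1, n2, ?_⟩, ?_⟩
      · intro a ha b hb hab
        obtain ⟨l, hl⟩ := m1 a ha
        obtain ⟨l', hl'⟩ := m2 b hb
        rw [← hl, ← hl'] at hab
        have := congrArg Prod.fst (he hab)
        exact Bool.false_ne_true this
      · intro i hi
        rcases List.mem_append.mp hi with hi | hi
        · obtain ⟨l, hl⟩ := m1 i hi
          exact ⟨_, hl⟩
        · obtain ⟨l, hl⟩ := m2 i hi
          exact ⟨_, hl⟩

end Upper

open Upper in
/-- Depth first evaluation: a deterministic program with a stack and at most `3 q 2 ^ h` nodes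
decides whether the last symbol is the value of the tree; it tests no variable twice. -/
theorem upper (F : Type) [Field F] [Fintype F] (h : ℕ) :
    ∃ (V : Type) (_ : Fintype V) (P : SBP V F (Option (Lf h)) F),
      Fintype.card V ≤ 4 * Fintype.card F * 2 ^ h ∧ P.Det ∧
      (∀ y, (∃ l, P.AccWalk y l) ↔ EvalLang F h y) ∧
      ∀ y v τ l, P.Walk y P.src [] v τ l → l.Nodup := by
  classical
  set c : List (Ins (Option (Lf h))) := code h some ++ [Ins.check none] with hc
  have hlen : c.length + 1 = 3 * 2 ^ h := by
    have := code_length h (fun l : Lf h => some l)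
    rw [hc, List.length_append, List.length_singleton]
    omega
  refine ⟨Fin (c.length + 1) × F, inferInstance, prog F c, ?_, prog_det c, ?_, ?_⟩
  · rw [Fintype.card_prod, Fintype.card_fin, hlen]
    have : 3 * 2 ^ h * Fintype.card F ≤ 4 * 2 ^ h * Fintype.card F := by
      apply Nat.mul_le_mul_right
      omega
    calc 3 * 2 ^ h * Fintype.card F ≤ 4 * 2 ^ h * Fintype.card F := this
      _ = 4 * Fintype.card F * 2 ^ h := by ring
  · intro y
    have key : exec y c 0 [] = if y none = tval h (fun l => y (some l)) then some (0, []) else none := by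
      rw [hc, exec_code]
      simp only [exec]
    constructor
    · rintro ⟨l, hl⟩
      have h1 := walk_exec hl rfl
      change exec y (c.drop 0) 0 [] = some (0, []) at h1
      rw [List.drop_zero, key] at h1
      by_contra hne
      rw [if_neg (fun e => hne e.symm)] at h1
      exact absurd h1 (by simp)
    · intro hy
      have h1 : exec y (c.drop 0) 0 [] = some (0, []) := by
        rw [List.drop_zero, key, if_pos hy.symm]
      exact exec_walk c y c.length 0 (by omega) 0 [] 0 [] h1
  · intro y v τ l hl
    have h1 := walk_rd hl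
    change rd (c.drop 0) = _ at h1
    rw [List.drop_zero] at h1
    have h2 : (rd c).Nodup := by
      obtain ⟨n1, m1⟩ := rd_code h (fun l : Lf h => some l) (fun a b e => Option.some.inj e)
      rw [hc, rd_append]
      simp only [rd]
      refine List.nodup_append.mpr ⟨n1, List.nodup_singleton _, ?_⟩
      intro a ha b hb hab
      obtain ⟨l, hl⟩ := m1 a ha
      rw [List.mem_singleton] at hb
      rw [← hl, hb] at hab
      exact absurd hab (by simp)
    rw [h1] at h2
    exact (List.nodup_append.mp h2).1

end Pool.Agent.STK
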